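import Pool.Agent.SOP.Conn

/-! Project SOP, module Corner (size 3): crossing P-cuts. -/

set_option autoImplicit false

open Set

namespace Pool.Agent.SOP

open Pool.Agent.SOC Pool.Agent.SOS

variable {V : Type} {G : SimpleGraph V} {X U : Set V}

theorem corner_one (X : Set V) [∀ x y, Decidable (x ∈ X ∧ y ∈ X)] (x y : V) :
    cutSum [X] x y = if x ∈ X ∧ y ∈ X then 1 else 0 := by
  unfold cutSum
  rw [List.map_cons, List.map_nil, List.sum_cons, List.sum_nil, add_zero]
  congr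

theorem corner_spl (hX : IsPCut G X) {a b c d : V} (h : Rigid G a b c d) : ¬ Spl X a b c d := by
  rintro ⟨h1, h2⟩
  by_cases ha : a ∈ X <;> by_cases hb : b ∈ X <;> by_cases hc : c ∈ X <;> by_cases hd : d ∈ X
  · exact h1 ⟨fun _ => hb, fun _ => ha⟩
  · exact h1 ⟨fun _ => hb, fun _ => ha⟩
  · exact h1 ⟨fun _ => hb, fun _ => ha⟩
  · exact h1 ⟨fun _ => hb, fun _ => ha⟩
  · exact h2 ⟨fun _ => hd, fun _ => hc⟩
  · exact hX a ha c hc b hb d hd h
  · exact hX a ha d hd b hb c hc h.swap'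
  · exact h2 ⟨fun t => absurd t hc, fun t => absurd t hd⟩
  · exact h2 ⟨fun _ => hd, fun _ => hc⟩
  · exact hX b hb c hc a ha d hd h.swap
  · exact hX b hb d hd a ha c hc h.swap.swap'
  · exact h2 ⟨fun t => absurd t hc, fun t => absurd t hd⟩
  all_goals exact h1 ⟨fun t => absurd t ha, fun t => absurd t hb⟩

/-- for w = cutSum [X]: sep w a b c d = 1 iff X separates a from b and c from d -/
theorem corner_sep {a b c d : V} : sep (cutSum [X]) a b c d = spv X a b c d := by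
  classical
  unfold sep spv Spl
  simp only [corner_one]
  by_cases ha : a ∈ X <;> by_cases hb : b ∈ X <;> by_cases hc : c ∈ X <;> by_cases hd : d ∈ X <;>
    simp only [ha, hb, hc, hd, true_and, and_true, false_and, and_false, if_true, if_false, iff_true, iff_false,
      not_true_eq_false, not_false_eq_true] <;> decide

/-- the cut function of a P-cut is a solution. PROOF: see kspan_ind_sol in SOC/KSpan.lean (private; copy). -/
theorem ind_sol (hX : IsPCut G X) : IsSol G (cutSum [X]) := by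
  intro a b c d h
  rw [corner_sep]
  unfold spv
  exact if_neg (corner_spl hX h)

/-- PROOF: for w = cutSum [X]: sep w a b c d = 1 iff X separates a from b and c from d (16 cases). -/
theorem sep_ind {a b c d : V} : sep (cutSum [X]) a b c d = spv X a b c d := corner_sep

/-- PROOF. Suppose ab, cd are rigid. w := cutSum [X, U] is a solution (ind_sol, sum). thmA: a set Z with a, b ∈ Z, c, d ∉ Z, IsSplit w Z. Let p be an element of
the corner: p on the side of X opposite to c (and d), and on the side of U opposite to a (and b); it exists by hc. If p ∉ Z: 0 = sep w a b c p = (1 · 1) + 0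
(ab is separated by X and not by U; c and p are separated by X): contradiction. If p ∈ Z: 0 = sep w a p c d = 0 + (1 · 1) (cd is separated by U and not by X; a and
p are separated by U): contradiction. -/
theorem nr_of_cross (hG : G.Preconnected) (hX : IsPCut G X) (hU : IsPCut G U) (hc : Crossing X U) {a b c d : V}
    (h1 : ¬ (a ∈ X ↔ b ∈ X)) (h2 : a ∈ U ↔ b ∈ U) (h3 : c ∈ X ↔ d ∈ X) (h4 : ¬ (c ∈ U ↔ d ∈ U)) : ¬ Rigid G a b c d := by
  intro hr
  have hs : IsSol G (fun x y => cutSum [X] x y + cutSum [U] x y) := by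
    intro a b c d h
    have e1 := ind_sol hX a b c d h
    have e2 := ind_sol hU a b c d h
    unfold sep at e1 e2 ⊢
    linear_combination e1 + e2
  have hsep : ∀ x y z t : V, sep (fun x y => cutSum [X] x y + cutSum [U] x y) x y z t = spv X x y z t + spv U x y z t := by
    intro x y z t
    rw [← corner_sep, ← corner_sep]
    unfold sep
    ring
  obtain ⟨Z, ha, hb, hcZ, hdZ, hZ⟩ := thmA hG hs hr
  obtain ⟨p, hp1, hp2⟩ : ∃ p, ¬ (c ∈ X ↔ p ∈ X) ∧ ¬ (a ∈ U ↔ p ∈ U) := by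
    obtain ⟨⟨p1, q1, r1⟩, ⟨p2, q2, r2⟩, ⟨p3, q3, r3⟩, p4, q4, r4⟩ := hc
    by_cases hcX : c ∈ X <;> by_cases haU : a ∈ U
    · exact ⟨p4, fun t => q4 (t.1 hcX), fun t => r4 (t.1 haU)⟩
    · exact ⟨p3, fun t => q3 (t.1 hcX), fun t => haU (t.2 r3)⟩
    · exact ⟨p2, fun t => hcX (t.2 q2), fun t => r2 (t.1 haU)⟩
    · exact ⟨p1, fun t => hcX (t.2 q1), fun t => haU (t.2 r1)⟩
  have e10 : (1 : ZMod 2) + 0 ≠ 0 := by decide
  have e01 : (0 : ZMod 2) + 1 ≠ 0 := by decide
  by_cases hpZ : p ∈ Z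
  · have e1 := hZ a ha p hpZ c hcZ d hdZ
    rw [hsep] at e1
    have f1 : spv X a p c d = 0 := if_neg fun t => t.2 h3
    have f2 : spv U a p c d = 1 := if_pos ⟨hp2, h4⟩
    rw [f1, f2] at e1
    exact e01 e1
  · have e1 := hZ a ha b hb c hcZ p hpZ
    rw [hsep] at e1
    have f1 : spv X a b c p = 1 := if_pos ⟨h1, hp1⟩
    have f2 : spv U a b c p = 0 := if_neg fun t => t.1 h2
    rw [f1, f2] at e1
    exact e10 e1

theorem corner_gen (hG : G.Preconnected) (hX : IsPCut G X) (hU : IsPCut G U) (hc : Crossing X U) {a b c d : V}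
    (h1 : ¬ (a ∈ X ↔ b ∈ X) ∨ ¬ (a ∈ U ↔ b ∈ U)) (h2 : ¬ (c ∈ X ↔ d ∈ X) ∨ ¬ (c ∈ U ↔ d ∈ U)) : ¬ Rigid G a b c d := by
  intro hr
  have g1 : ¬ (¬ (a ∈ X ↔ b ∈ X) ∧ ¬ (c ∈ X ↔ d ∈ X)) := corner_spl hX hr
  have g2 : ¬ (¬ (a ∈ U ↔ b ∈ U) ∧ ¬ (c ∈ U ↔ d ∈ U)) := corner_spl hU hr
  by_cases k1 : a ∈ X ↔ b ∈ X
  · have k2 : ¬ (a ∈ U ↔ b ∈ U) := h1.resolve_left fun t => t k1
    have k3 : c ∈ U ↔ d ∈ U := by
      by_contra t
      exact g2 ⟨k2, t⟩
    have k4 : ¬ (c ∈ X ↔ d ∈ X) := h2.resolve_right fun t => t k3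
    exact nr_of_cross hG hX hU hc k4 k3 k1 k2 hr.symm
  · have k4 : c ∈ X ↔ d ∈ X := by
      by_contra t
      exact g1 ⟨k1, t⟩
    have k3 : ¬ (c ∈ U ↔ d ∈ U) := h2.resolve_left fun t => t k4
    have k2 : a ∈ U ↔ b ∈ U := by
      by_contra t
      exact g2 ⟨t, k3⟩
    exact nr_of_cross hG hX hU hc k1 k2 k4 k3 hr

/-- PROOF: an edge leaving the set leaves exactly one of X, U; nr_of_cross, hX, hU. -/
theorem pcut_symmDiff (hG : G.Preconnected) (hX : IsPCut G X) (hU : IsPCut G U) (hc : Crossing X U) :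
    IsPCut G {p | p ∈ X ↔ p ∈ U} := by
  intro x hx x' hx' y hy y' hy'
  have hx1 : x ∈ X ↔ x ∈ U := hx
  have hx1' : x' ∈ X ↔ x' ∈ U := hx'
  have hy1 : ¬ (y ∈ X ↔ y ∈ U) := hy
  have hy1' : ¬ (y' ∈ X ↔ y' ∈ U) := hy'
  refine corner_gen hG hX hU hc ?_ ?_
  · by_contra t
    push Not at t
    exact hy1 (t.1.symm.trans (hx1.trans t.2))
  · by_contra t
    push Not at t
    exact hy1' (t.1.symm.trans (hx1'.trans t.2))

/-- PROOF: an edge leaving X ∩ U leaves X or U (or both). -/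
theorem pcut_inter (hG : G.Preconnected) (hX : IsPCut G X) (hU : IsPCut G U) (hc : Crossing X U) : IsPCut G (X ∩ U) := by
  intro x hx x' hx' y hy y' hy'
  refine corner_gen hG hX hU hc ?_ ?_
  · by_contra t
    push Not at t
    exact hy ⟨t.1.1 hx.1, t.2.1 hx.2⟩
  · by_contra t
    push Not at t
    exact hy' ⟨t.1.1 hx'.1, t.2.1 hx'.2⟩

/-- PROOF: pcut_inter for complements. -/
theorem pcut_union (hG : G.Preconnected) (hX : IsPCut G X) (hU : IsPCut G U) (hc : Crossing X U) : IsPCut G (X ∪ U) := by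
  intro x hx x' hx' y hy y' hy'
  refine corner_gen hG hX hU hc ?_ ?_
  · by_contra t
    push Not at t
    exact hy (hx.imp t.1.1 t.2.1)
  · by_contra t
    push Not at t
    exact hy' (hx'.imp t.1.1 t.2.1)

end Pool.Agent.SOP
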