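import Pool.Agent.SOP.Defs

/-! Project SOP, module Flip (size 4): reversing intervals of a cyclic order. -/

set_option autoImplicit false

open Set

namespace Pool.Agent.SOP

open Pool.Agent.SOC

variable {V : Type} {G : SimpleGraph V} [DecidableEq V]

/-- PROOF: ordFn_rot. -/
theorem sep_rot {p q : List V} (h : IsEnum (p ++ q)) {a b c d : V} (h1 : a ≠ c) (h2 : a ≠ d) (h3 : b ≠ c) (h4 : b ≠ d) :
    sep (ordFn (q ++ p)) a b c d = sep (ordFn (p ++ q)) a b c d := by
  unfold sep
  rw [ordFn_rot h h1, ordFn_rot h h2, ordFn_rot h h3, ordFn_rot h h4]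
  have t1 := zadd_self (if a ∈ p then (1 : ZMod 2) else 0)
  have t2 := zadd_self (if b ∈ p then (1 : ZMod 2) else 0)
  have t3 := zadd_self (if c ∈ p then (1 : ZMod 2) else 0)
  have t4 := zadd_self (if d ∈ p then (1 : ZMod 2) else 0)
  linear_combination t1 + t2 + t3 + t4

theorem flip_ne {X : Set V} {x y : V} (hx : x ∈ X) (hy : y ∉ X) : x ≠ y := fun e => hy (e ▸ hx)

theorem flip_ci_rot {p q : List V} (h : IsEnum (p ++ q)) {X : Set V} (hX : CI (p ++ q) X) : CI (q ++ p) X := by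
  intro x hx x' hx' y hy y' hy'
  rw [sep_rot h (flip_ne hx hy) (flip_ne hx hy') (flip_ne hx' hy) (flip_ne hx' hy')]
  exact hX x hx x' hx' y hy y' hy'

/-- the splitting of a list which starts outside of the interval -/
theorem flip_split_head {v : V} {l : List V} (hs : IsEnum (v :: l)) {X : Set V} (hX : CI (v :: l) X) (hv : v ∉ X) :
    ∃ p x q : List V, v :: l = p ++ x ++ q ∧ (∀ z ∈ x, z ∈ X) ∧ (∀ z ∈ p, z ∉ X) ∧ ∀ z ∈ q, z ∉ X := by
  classical
  obtain ⟨s, hsd⟩ : ∃ s, s = v :: l := ⟨_, rfl⟩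
  have hv0 : ∀ z, ordFn s z v = 0 := by
    intro z
    unfold ordFn
    rw [hsd, List.idxOf_cons_self]
    exact if_neg (Nat.not_lt_zero _)
  rw [← hsd] at hs hX ⊢
  have key : ∀ x ∈ X, ∀ x' ∈ X, ∀ y, y ∉ X → ordFn s x y = ordFn s x' y := by
    intro x hx x' hx' y hy
    have h1 := hX x hx x' hx' y hy v hv
    unfold sep at h1
    rw [hv0, hv0, add_zero, add_zero] at h1
    exact zadd_eq_zero h1
  obtain ⟨p, hp⟩ : ∃ p, p = s.takeWhile (fun z => decide (z ∉ X)) := ⟨_, rfl⟩
  obtain ⟨r, hr⟩ : ∃ r, r = s.dropWhile (fun z => decide (z ∉ X)) := ⟨_, rfl⟩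
  obtain ⟨x, hx⟩ : ∃ x, x = r.takeWhile (fun z => decide (z ∈ X)) := ⟨_, rfl⟩
  obtain ⟨q, hq⟩ : ∃ q, q = r.dropWhile (fun z => decide (z ∈ X)) := ⟨_, rfl⟩
  have hspr : s = p ++ r := by
    rw [hp, hr]
    exact List.takeWhile_append_dropWhile.symm
  have hrxq : r = x ++ q := by
    rw [hx, hq]
    exact List.takeWhile_append_dropWhile.symm
  have hpX : ∀ z ∈ p, z ∉ X := by
    intro z hz
    rw [hp] at hz
    have h1 := List.mem_takeWhile_imp (p := fun z => decide (z ∉ X)) hz
    exact of_decide_eq_true h1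
  have hxX : ∀ z ∈ x, z ∈ X := by
    intro z hz
    rw [hx] at hz
    have h1 := List.mem_takeWhile_imp (p := fun z => decide (z ∈ X)) hz
    exact of_decide_eq_true h1
  refine ⟨p, x, q, ?_, hxX, hpX, ?_⟩
  · rw [hspr, hrxq, List.append_assoc]
  · intro z hz hzX
    cases q with
    | nil => exact absurd hz List.not_mem_nil
    | cons y q' =>
      have hy : y ∉ X := by
        have h1 := List.head_dropWhile_not (fun z => decide (z ∈ X)) (l := r) (by
          rw [← hq]
          exact List.cons_ne_nil _ _)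
        simp only [← hq, List.head_cons] at h1
        exact of_decide_eq_false h1
      cases x with
      | nil =>
        have h2 : r ≠ [] := by
          rw [hrxq]
          exact List.cons_ne_nil _ _
        have h1 := List.head_dropWhile_not (fun z => decide (z ∉ X)) (l := s) (by
          rw [← hr]
          exact h2)
        have h3 : r.head h2 = y := by
          simp only [hrxq, List.nil_append, List.head_cons]
        simp only [← hr] at h1
        have h4 : decide (y ∉ X) = false := by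
          rw [← h3]
          exact h1
        exact of_decide_eq_false h4 hy
      | cons x₀ x' =>
        have hx₀ : x₀ ∈ X := hxX x₀ List.mem_cons_self
        have hpw := pairwise_idx hs.1
        have hform : s = (p ++ (x₀ :: x')) ++ (y :: q') := by
          rw [hspr, hrxq, List.append_assoc]
        have hpw2 : ((p ++ (x₀ :: x')) ++ (y :: q')).Pairwise (fun x y => s.idxOf x < s.idxOf y) := by
          rw [← hform]
          exact hpw
        rw [List.pairwise_append] at hpw2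
        obtain ⟨_, h5, h6⟩ := hpw2
        have h7 : s.idxOf x₀ < s.idxOf y := h6 x₀ (List.mem_append.2 (Or.inr List.mem_cons_self)) y List.mem_cons_self
        have hzq : z ∈ q' := by
          rcases List.mem_cons.1 hz with h8 | h8
          · exact absurd (h8 ▸ hzX) hy
          · exact h8
        have h8 : s.idxOf y < s.idxOf z := (List.pairwise_cons.1 h5).1 z hzq
        have h9 := key x₀ hx₀ z hzX y hy
        unfold ordFn at h9
        rw [if_pos h7, if_neg (by omega)] at h9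
        exact absurd h9 (by decide)

/-- an interval, after rotation, is a consecutive part. PROOF: if X = ∅ or everything: clear. Otherwise rotate s such that the first element is not in
X (and, to be safe, is v ∉ X): then X is Convex in the rest (CI for x, x' ∈ X, y ∉ X between them, v: sep = 1). Split the list: p = takeWhile (∉ X), x = takeWhile
(∈ X) of the rest, q = the rest. -/
theorem ci_split {s : List V} (hs : IsEnum s) {X : Set V} (hX : CI s X) :
    ∃ p x q : List V, (∃ u t, s = u ++ t ∧ t ++ u = p ++ x ++ q) ∧ (∀ z ∈ x, z ∈ X) ∧ (∀ z ∈ p, z ∉ X) ∧ ∀ z ∈ q, z ∉ X := by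
  by_cases hall : ∀ z, z ∈ X
  · refine ⟨[], s, [], ⟨[], s, rfl, ?_⟩, fun z _ => hall z, fun z hz => absurd hz List.not_mem_nil,
      fun z hz => absurd hz List.not_mem_nil⟩
    rw [List.append_nil, List.append_nil, List.nil_append]
  · push Not at hall
    obtain ⟨v, hv⟩ := hall
    obtain ⟨u, t, hut⟩ := List.append_of_mem (hs.2 v)
    subst hut
    obtain ⟨p, x, q, h1, h2⟩ := flip_split_head (v := v) (l := t ++ u) (isEnum_rot hs) (flip_ci_rot hs hX) hv
    exact ⟨p, x, q, ⟨u, v :: t, rfl, h1⟩, h2⟩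

/-- positions after the reversal of the middle part -/
theorem flip_pos {p x q : List V} (h : (p ++ x ++ q).Nodup) {z : V} (hz : z ∈ p ++ x ++ q) :
    (z ∉ x ∧ (p ++ x ++ q).idxOf z = p.idxOf z ∧ (p ++ x.reverse ++ q).idxOf z = p.idxOf z ∧ p.idxOf z < p.length) ∨
    (z ∈ x ∧ (p ++ x ++ q).idxOf z = p.length + x.idxOf z ∧
      (p ++ x.reverse ++ q).idxOf z = p.length + x.reverse.idxOf z ∧ x.idxOf z < x.length ∧ x.reverse.idxOf z < x.length) ∨
    (z ∉ x ∧ (p ++ x ++ q).idxOf z = p.length + x.length + q.idxOf z ∧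
      (p ++ x.reverse ++ q).idxOf z = p.length + x.length + q.idxOf z) := by
  have h1 := (List.nodup_append.1 h)
  have h2 := (List.nodup_append.1 h1.1)
  have hpx : ∀ z, z ∈ p → z ∉ x := fun z h3 h4 => h2.2.2 z h3 z h4 rfl
  have hpxq : ∀ z, z ∈ q → z ∉ p ∧ z ∉ x := fun z h3 =>
    ⟨fun h4 => h1.2.2 z (List.mem_append.2 (Or.inl h4)) z h3 rfl,
      fun h4 => h1.2.2 z (List.mem_append.2 (Or.inr h4)) z h3 rfl⟩
  by_cases hp : z ∈ p
  · left
    refine ⟨hpx z hp, ?_, ?_, List.idxOf_lt_length_iff.2 hp⟩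
    · rw [List.append_assoc, List.idxOf_append_of_mem hp]
    · rw [List.append_assoc, List.idxOf_append_of_mem hp]
  · by_cases hx : z ∈ x
    · right
      left
      have hxr : z ∈ x.reverse := List.mem_reverse.2 hx
      refine ⟨hx, ?_, ?_, List.idxOf_lt_length_iff.2 hx, ?_⟩
      · rw [List.append_assoc, List.idxOf_append_of_notMem hp, List.idxOf_append_of_mem hx]
      · rw [List.append_assoc, List.idxOf_append_of_notMem hp, List.idxOf_append_of_mem hxr]
      · have h3 := List.idxOf_lt_length_iff.2 hxr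
        rwa [List.length_reverse] at h3
    · right
      right
      have hxr : z ∉ x.reverse := fun h3 => hx (List.mem_reverse.1 h3)
      refine ⟨hx, ?_, ?_⟩
      · rw [List.append_assoc, List.idxOf_append_of_notMem hp, List.idxOf_append_of_notMem hx, Nat.add_assoc]
      · rw [List.append_assoc, List.idxOf_append_of_notMem hp, List.idxOf_append_of_notMem hxr, List.length_reverse,
          Nat.add_assoc]

theorem flip_ord {p x q : List V} (h : IsEnum (p ++ x ++ q)) {y z : V} (hne : y ≠ z) :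
    ordFn (p ++ x.reverse ++ q) y z = ordFn (p ++ x ++ q) y z + (if y ∈ x ∧ z ∈ x then 1 else 0) := by
  have hxn : x.Nodup := (List.nodup_append.1 (List.nodup_append.1 h.1).1).2.1
  have e2 : (1 : ZMod 2) + 1 = 0 := by decide
  unfold ordFn
  rcases flip_pos h.1 (h.2 y) with ⟨hy, a1, a2, a3⟩ | ⟨hy, a1, a2, a3, a4⟩ | ⟨hy, a1, a2⟩ <;>
    rcases flip_pos h.1 (h.2 z) with ⟨hz, b1, b2, b3⟩ | ⟨hz, b1, b2, b3, b4⟩ | ⟨hz, b1, b2⟩ <;>
    rw [a1, a2, b1, b2]
  · rw [if_neg (fun t : y ∈ x ∧ z ∈ x => hy t.1), add_zero]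
  · rw [if_neg (fun t : y ∈ x ∧ z ∈ x => hy t.1), add_zero, if_pos (by omega), if_pos (by omega)]
  · rw [if_neg (fun t : y ∈ x ∧ z ∈ x => hy t.1), add_zero]
  · rw [if_neg (fun t : y ∈ x ∧ z ∈ x => hz t.2), add_zero, if_neg (by omega), if_neg (by omega)]
  · rw [if_pos (⟨hy, hz⟩ : y ∈ x ∧ z ∈ x)]
    have hne1 : x.idxOf y ≠ x.idxOf z := fun e => hne ((List.idxOf_inj hy).1 e)
    have hne2 : x.reverse.idxOf y ≠ x.reverse.idxOf z :=
      fun e => hne ((List.idxOf_inj (List.mem_reverse.2 hy)).1 e)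
    rcases lt_or_gt_of_ne hne2 with h3 | h3
    · have h4 := idx_reverse hxn hy hz h3
      rw [if_pos (by omega), if_neg (by omega), zero_add]
    · have h4 := idx_reverse hxn hz hy h3
      rw [if_neg (by omega), if_pos (by omega), e2]
  · rw [if_neg (fun t : y ∈ x ∧ z ∈ x => hz t.2), add_zero, if_pos (by omega), if_pos (by omega)]
  · rw [if_neg (fun t : y ∈ x ∧ z ∈ x => hy t.1), add_zero]
  · rw [if_neg (fun t : y ∈ x ∧ z ∈ x => hy t.1), add_zero, if_neg (by omega), if_neg (by omega)]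
  · rw [if_neg (fun t : y ∈ x ∧ z ∈ x => hy t.1), add_zero]

theorem flip_spv {X : Set V} {x : List V} (hx : ∀ z, z ∈ x ↔ z ∈ X) (a b c d : V) :
    (if a ∈ x ∧ c ∈ x then (1 : ZMod 2) else 0) + (if a ∈ x ∧ d ∈ x then 1 else 0) +
      (if b ∈ x ∧ c ∈ x then 1 else 0) + (if b ∈ x ∧ d ∈ x then 1 else 0) = spv X a b c d := by
  classical
  unfold spv Spl
  rw [← hx a, ← hx b, ← hx c, ← hx d]
  by_cases ha : a ∈ x <;> by_cases hb : b ∈ x <;> by_cases hc : c ∈ x <;> by_cases hd : d ∈ x <;>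
    simp only [ha, hb, hc, hd, true_and, and_true, false_and, and_false, if_true, if_false, iff_true, iff_false,
      not_true_eq_false, not_false_eq_true] <;> decide

/-- PROOF: ci_split; s' := p ++ x.reverse ++ q; ordFn s' y z = ordFn (p ++ x ++ q) y z + (1 if y, z ∈ X) for y ≠ z; the four term sum of the
indicator (y, z ∈ X) is spv. -/
theorem flip_one {s : List V} (hs : IsEnum s) {X : Set V} (hX : CI s X) :
    ∃ s', IsEnum s' ∧ ∀ a b c d, a ≠ c → a ≠ d → b ≠ c → b ≠ d →
      sep (ordFn s') a b c d = sep (ordFn s) a b c d + spv X a b c d := by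
  obtain ⟨p, x, q, ⟨u, t, hst, htu⟩, hx, hp, hq⟩ := ci_split hs hX
  subst hst
  have h1 : IsEnum (p ++ x ++ q) := by
    rw [← htu]
    exact isEnum_rot hs
  have hperm : (p ++ x ++ q).Perm (p ++ x.reverse ++ q) :=
    List.Perm.append_right _ (List.Perm.append_left _ (List.reverse_perm x).symm)
  have h2 : IsEnum (p ++ x.reverse ++ q) := ⟨hperm.nodup_iff.1 h1.1, fun v => hperm.mem_iff.1 (h1.2 v)⟩
  have hxX : ∀ z, z ∈ x ↔ z ∈ X := by
    intro z
    refine ⟨hx z, fun hz => ?_⟩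
    rcases List.mem_append.1 (h1.2 z) with h3 | h3
    · rcases List.mem_append.1 h3 with h4 | h4
      · exact absurd hz (hp z h4)
      · exact h4
    · exact absurd hz (hq z h3)
  refine ⟨p ++ x.reverse ++ q, h2, ?_⟩
  intro a b c d h3 h4 h5 h6
  rw [← flip_spv hxX, ← sep_rot hs h3 h4 h5 h6, htu]
  unfold sep
  rw [flip_ord h1 h3, flip_ord h1 h4, flip_ord h1 h5, flip_ord h1 h6]
  ring

theorem flip_ci {s s' : List V} {X Y : Set V} (hY : CI s Y) (hc : ¬ Crossing X Y)
    (h : ∀ a b c d, a ≠ c → a ≠ d → b ≠ c → b ≠ d →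
      sep (ordFn s') a b c d = sep (ordFn s) a b c d + spv X a b c d) : CI s' Y := by
  intro y hy y' hy' z hz z' hz'
  rw [h y y' z z' (flip_ne hy hz) (flip_ne hy hz') (flip_ne hy' hz) (flip_ne hy' hz'), hY y hy y' hy' z hz z' hz',
    zero_add]
  unfold spv
  refine if_neg ?_
  rintro ⟨h1, h2⟩
  apply hc
  by_cases a1 : y ∈ X <;> by_cases a2 : y' ∈ X <;> by_cases a3 : z ∈ X <;> by_cases a4 : z' ∈ X
  · exact absurd (iff_of_true a1 a2) h1
  · exact absurd (iff_of_true a1 a2) h1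
  · exact absurd (iff_of_true a1 a2) h1
  · exact absurd (iff_of_true a1 a2) h1
  · exact absurd (iff_of_true a3 a4) h2
  · exact ⟨⟨y, a1, hy⟩, ⟨z, a3, hz⟩, ⟨y', a2, hy'⟩, z', a4, hz'⟩
  · exact ⟨⟨y, a1, hy⟩, ⟨z', a4, hz'⟩, ⟨y', a2, hy'⟩, z, a3, hz⟩
  · exact absurd (iff_of_false a3 a4) h2
  · exact absurd (iff_of_true a3 a4) h2
  · exact ⟨⟨y', a2, hy'⟩, ⟨z, a3, hz⟩, ⟨y, a1, hy⟩, z', a4, hz'⟩
  · exact ⟨⟨y', a2, hy'⟩, ⟨z', a4, hz'⟩, ⟨y, a1, hy⟩, z, a3, hz⟩
  · exact absurd (iff_of_false a3 a4) h2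
  all_goals exact absurd (iff_of_false a1 a2) h1

/-- PROOF: induction on L with flip_one. Intervals Y not crossing X remain intervals: y, y' ∈ Y, z, z' ∉ Y: spv X y y' z z' = 1 would give
Crossing X Y. -/
theorem flip_list (L : List (Set V)) {s : List V} (hs : IsEnum s) (h : ∀ X ∈ L, CI s X)
    (hc : ∀ X ∈ L, ∀ Y ∈ L, ¬ Crossing X Y) :
    ∃ s', IsEnum s' ∧ (∀ Y, CI s Y → (∀ X ∈ L, ¬ Crossing X Y) → CI s' Y) ∧
      ∀ a b c d, a ≠ c → a ≠ d → b ≠ c → b ≠ d →
        sep (ordFn s') a b c d = sep (ordFn s) a b c d + (L.map (fun X => spv X a b c d)).sum := by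
  induction L with
  | nil =>
    refine ⟨s, hs, fun Y hY _ => hY, ?_⟩
    intro a b c d _ _ _ _
    rw [List.map_nil, List.sum_nil, add_zero]
  | cons X L ih =>
    obtain ⟨s₁, h1, h2, h3⟩ := ih (fun Y hY => h Y (List.mem_cons_of_mem _ hY))
      (fun Y hY Z hZ => hc Y (List.mem_cons_of_mem _ hY) Z (List.mem_cons_of_mem _ hZ))
    have h4 : CI s₁ X := h2 X (h X List.mem_cons_self)
      (fun Y hY => hc Y (List.mem_cons_of_mem _ hY) X List.mem_cons_self)
    obtain ⟨s₂, h5, h6⟩ := flip_one h1 h4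
    refine ⟨s₂, h5, ?_, ?_⟩
    · intro Y hY hYc
      exact flip_ci (h2 Y hY fun Z hZ => hYc Z (List.mem_cons_of_mem _ hZ)) (hYc X List.mem_cons_self) h6
    · intro a b c d g1 g2 g3 g4
      rw [h6 a b c d g1 g2 g3 g4, h3 a b c d g1 g2 g3 g4, List.map_cons, List.sum_cons]
      ring

theorem flip_spl {X : Set V} (hX : IsPCut G X) {a b c d : V} (h : Rigid G a b c d) : spv X a b c d = 0 := by
  unfold spv
  refine if_neg ?_
  rintro ⟨h1, h2⟩
  by_cases ha : a ∈ X <;> by_cases hb : b ∈ X <;> by_cases hc : c ∈ X <;> by_cases hd : d ∈ X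
  · exact h1 (iff_of_true ha hb)
  · exact h1 (iff_of_true ha hb)
  · exact h1 (iff_of_true ha hb)
  · exact h1 (iff_of_true ha hb)
  · exact h2 (iff_of_true hc hd)
  · exact hX a ha c hc b hb d hd h
  · exact hX a ha d hd b hb c hc h.swap'
  · exact h2 (iff_of_false hc hd)
  · exact h2 (iff_of_true hc hd)
  · exact hX b hb c hc a ha d hd h.swap
  · exact hX b hb d hd a ha c hc h.swap.swap'
  · exact h2 (iff_of_false hc hd)
  all_goals exact h1 (iff_of_false ha hb)

/-- PROOF: spv X a b c d = 0 for rigid ab, cd and a P-cut X. -/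
theorem flip_wo {L : List (Set V)} {s s' : List V} (hs : IsEnum s) (hs' : IsEnum s') (hw : IsWO G s)
    (hp : ∀ X ∈ L, IsPCut G X)
    (h : ∀ a b c d, a ≠ c → a ≠ d → b ≠ c → b ≠ d →
        sep (ordFn s') a b c d = sep (ordFn s) a b c d + (L.map (fun X => spv X a b c d)).sum) : IsWO G s' := by
  rw [isWO_iff hs']
  intro a b c d hr
  rw [h a b c d hr.ac hr.ad hr.bc hr.bd, (isWO_iff hs).1 hw a b c d hr, zero_add]
  apply List.sum_eq_zero
  intro t ht
  obtain ⟨X, hX, rfl⟩ := List.mem_map.1 ht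
  exact flip_spl (hp X hX) hr

end Pool.Agent.SOP
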