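import Pool.Agent.SOP.Strong
import Pool.Agent.SOP.Flip

/-! Project SOP, module Gather (size 4): making a P-cut an interval of a WO order. -/

set_option autoImplicit false

open Set

namespace Pool.Agent.SOP

open Pool.Agent.SOC Pool.Agent.SOS

variable {V : Type} {G : SimpleGraph V} {X : Set V} [DecidableEq V] {s : List V}

/-- PROOF: suppose a, b and c, d are in different blocks (or on different sides). Both edges leave some union U of blocks, a P-cut
(pcut_blocks), so they are not rigid: if the blocks of b and c are equal: U = this block (contains b, c; not a, not d if d is not in the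
block of c). If the blocks of a and c are equal: the same (contains a and c). Blocks of a and d equal, b and d equal: the same. Otherwise U = block
of a ∪ block of c. -/
theorem rigid_blk (hG : PrimeG G) (hs : IsEnum s) (hw : IsWO G s) (hX : IsPCut G X) (hn : Nontriv X) {a b c d : V}
    (h : Rigid G a b c d) : Blk s X a b ∨ Blk s X c d := by
  by_contra hcon
  push Not at hcon
  obtain ⟨hab, hcd⟩ := hcon
  have hsy : ∀ {x z : V}, Blk s X x z → Blk s X z x := fun h => blk_symm hs h
  have htr : ∀ {x z u : V}, Blk s X x z → Blk s X z u → Blk s X x u := fun h h' => blk_trans hs h h'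
  have hcut : ∀ p : V, IsPCut G {z | Blk s X p z} := by
    intro p
    refine pcut_blocks hG hs hw hX hn ?_
    intro x z hxz hx
    exact htr hx hxz
  have hcut2 : IsPCut G {z | Blk s X a z ∨ Blk s X c z} := by
    refine pcut_blocks hG hs hw hX hn ?_
    intro x z hxz hx
    rcases hx with hx | hx
    · exact Or.inl (htr hx hxz)
    · exact Or.inr (htr hx hxz)
  by_cases hbc : Blk s X b c
  · exact hcut b b (blk_refl hs b) c hbc a (fun t => hab (hsy t)) d (fun t => hcd (htr (hsy hbc) t)) h.swap
  by_cases had : Blk s X a d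
  · exact hcut a a (blk_refl hs a) d had b hab c (fun t => hcd (htr (hsy t) had)) h.swap'
  refine hcut2 a (Or.inl (blk_refl hs a)) c (Or.inr (blk_refl hs c)) b ?_ d ?_ h
  · rintro (t | t)
    · exact hab t
    · exact hbc (hsy t)
  · rintro (t | t)
    · exact had t
    · exact hcd t

theorem gather_idx {l : List V} (hl : l.Nodup) {l₁ l₂ : List V} (h : l = l₁ ++ l₂) {x y : V} (hx : x ∈ l₁) (hy : y ∈ l₂) :
    l.idxOf x < l.idxOf y := by
  have h1 := pairwise_idx hl
  have h2 : (l₁ ++ l₂).Pairwise (fun x y => l.idxOf x < l.idxOf y) := by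
    rw [← h]
    exact h1
  exact (List.pairwise_append.1 h2).2.2 x hx y hy

/-- the order in a filtered part is the order of the list -/
theorem gather_sub {s l : List V} (hs : s.Nodup) (hl : l.Nodup) (h : l.Sublist s) {x y : V} (hx : x ∈ l) (hy : y ∈ l)
    (hxy : l.idxOf x < l.idxOf y) : s.idxOf x < s.idxOf y := by
  have h1 := (pairwise_idx hs).sublist h
  rw [List.pairwise_iff_getElem] at h1
  have h2 := h1 (l.idxOf x) (l.idxOf y) (List.idxOf_lt_length_iff.2 hx) (List.idxOf_lt_length_iff.2 hy) hxy
  rwa [List.getElem_idxOf, List.getElem_idxOf] at h2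

theorem gather_ne {X : Set V} {x y : V} (hx : x ∈ X) (hy : y ∉ X) : x ≠ y := fun e => hy (e ▸ hx)

section

open Classical

/-- the gathered list -/
noncomputable def gatherL (s : List V) (X : Set V) : List V :=
  s.filter (fun x => decide (x ∈ X)) ++ s.filter (fun x => decide (x ∉ X))

theorem gather_l_enum (hs : IsEnum s) : IsEnum (gatherL s X) := by
  have h1 : (gatherL s X).Perm s := by
    unfold gatherL
    have h2 := List.filter_append_perm (fun x => decide (x ∈ X)) s
    have h3 : (fun x => decide (x ∉ X)) = (fun x : V => !decide (x ∈ X)) := by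
      funext x
      exact decide_not
    rw [h3]
    exact h2
  exact ⟨h1.nodup_iff.2 hs.1, fun v => h1.mem_iff.2 (hs.2 v)⟩

theorem gather_l_lt (hs : IsEnum s) {x y : V} (hx : x ∈ X) (hy : y ∉ X) : (gatherL s X).idxOf x < (gatherL s X).idxOf y :=
  gather_idx (gather_l_enum hs).1 (l₁ := s.filter (fun x => decide (x ∈ X))) (l₂ := s.filter (fun x => decide (x ∉ X))) rfl
    (List.mem_filter.2 ⟨hs.2 x, decide_eq_true hx⟩) (List.mem_filter.2 ⟨hs.2 y, decide_eq_true hy⟩)

theorem gather_l_same (hs : IsEnum s) {x y : V} (hxy : x ≠ y) (h : x ∈ X ↔ y ∈ X) :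
    ordFn (gatherL s X) x y = ordFn s x y := by
  have key : ∀ x y : V, (x ∈ X ↔ y ∈ X) → (gatherL s X).idxOf x < (gatherL s X).idxOf y → s.idxOf x < s.idxOf y := by
    intro x y h hlt
    have hnd := (gather_l_enum (X := X) hs).1
    by_cases hx : x ∈ X
    · have hxl : x ∈ s.filter (fun x => decide (x ∈ X)) := List.mem_filter.2 ⟨hs.2 x, decide_eq_true hx⟩
      have hyl : y ∈ s.filter (fun x => decide (x ∈ X)) := List.mem_filter.2 ⟨hs.2 y, decide_eq_true (h.1 hx)⟩
      refine gather_sub hs.1 (List.nodup_append.1 hnd).1 List.filter_sublist hxl hyl ?_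
      unfold gatherL at hlt
      rwa [List.idxOf_append_of_mem hxl, List.idxOf_append_of_mem hyl] at hlt
    · have hy : y ∉ X := fun t => hx (h.2 t)
      have hxl : x ∈ s.filter (fun x => decide (x ∉ X)) := List.mem_filter.2 ⟨hs.2 x, decide_eq_true hx⟩
      have hyl : y ∈ s.filter (fun x => decide (x ∉ X)) := List.mem_filter.2 ⟨hs.2 y, decide_eq_true hy⟩
      have hxn : x ∉ s.filter (fun x => decide (x ∈ X)) := fun t => hx (of_decide_eq_true (List.mem_filter.1 t).2)
      have hyn : y ∉ s.filter (fun x => decide (x ∈ X)) := fun t => hy (of_decide_eq_true (List.mem_filter.1 t).2)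
      refine gather_sub hs.1 (List.nodup_append.1 hnd).2.1 List.filter_sublist hxl hyl ?_
      unfold gatherL at hlt
      rw [List.idxOf_append_of_notMem hxn, List.idxOf_append_of_notMem hyn] at hlt
      omega
  have h1 := idx_ne (gather_l_enum (X := X) hs) hxy
  have h2 := idx_ne hs hxy
  unfold ordFn
  rcases lt_or_gt_of_ne h1 with h3 | h3
  · rw [if_pos h3, if_pos (key x y h h3)]
  · have h4 := key y x h.symm h3
    rw [if_neg (by omega), if_neg (by omega)]

/-- the crucial lemma: for two elements of a block the sum of the order functions does not change -/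
theorem gather_l_blk (hs : IsEnum s) (h1 : ∀ x, s.head? = some x → x ∈ X) (h2 : ∀ x, s.getLast? = some x → x ∉ X)
    {a b z : V} (hab : Blk s X a b) (haz : a ≠ z) (hbz : b ≠ z) :
    ordFn (gatherL s X) a z + ordFn (gatherL s X) b z = ordFn s a z + ordFn s b z := by
  obtain ⟨hside, hcr⟩ := hab
  by_cases hz : z ∈ X ↔ a ∈ X
  · rw [gather_l_same hs haz hz.symm, gather_l_same hs hbz (hside.symm.trans hz.symm)]
  · have hz' : z ∈ X ↔ a ∉ X := by tauto
    have hsne : s ≠ [] := by
      intro e
      have h3 := hs.2 a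
      rw [e] at h3
      exact absurd h3 List.not_mem_nil
    obtain ⟨f, l, hfl⟩ := List.exists_cons_of_ne_nil hsne
    have hf : f ∈ X := h1 f (by rw [hfl, List.head?_cons])
    obtain ⟨l', e, hle⟩ : ∃ l' e, s = l' ++ [e] := ⟨s.dropLast, s.getLast hsne, (List.dropLast_append_getLast hsne).symm⟩
    have he : e ∉ X := h2 e (by rw [hle, List.getLast?_append, List.getLast?_singleton, Option.some_or])
    have hf0 : ∀ x, ordFn s x f = 0 := by
      intro x
      unfold ordFn
      rw [hfl, List.idxOf_cons_self]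
      exact if_neg (Nat.not_lt_zero _)
    have he1 : ∀ x, x ≠ e → ordFn s x e = 1 := by
      intro x hx
      unfold ordFn
      refine if_pos (gather_idx hs.1 hle ?_ List.mem_cons_self)
      have h3 := hs.2 x
      rw [hle] at h3
      rcases List.mem_append.1 h3 with h4 | h4
      · exact h4
      · exact absurd (List.mem_singleton.1 h4) hx
    have e11 : (1 : ZMod 2) + 1 = 0 := by decide
    by_cases ha : a ∈ X
    · have hb : b ∈ X := hside.1 ha
      have hzX : z ∉ X := fun t => hz'.1 t ha
      have h3 := hcr z e (iff_of_false hzX (fun t => t ha)) (iff_of_false he (fun t => t ha))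
      rw [not_cross_iff hs haz (gather_ne ha he) hbz (gather_ne hb he)] at h3
      unfold sep at h3
      rw [he1 a (gather_ne ha he), he1 b (gather_ne hb he)] at h3
      have g1 : ordFn (gatherL s X) a z = 1 := if_pos (gather_l_lt hs ha hzX)
      have g2 : ordFn (gatherL s X) b z = 1 := if_pos (gather_l_lt hs hb hzX)
      rw [g1, g2]
      linear_combination (-1 : ZMod 2) * h3 + 2 * e11
    · have hb : b ∉ X := fun t => ha (hside.2 t)
      have hzX : z ∈ X := hz'.2 ha
      have h3 := hcr z f (iff_of_true hzX ha) (iff_of_true hf ha)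
      rw [not_cross_iff hs haz (gather_ne hf ha).symm hbz (gather_ne hf hb).symm] at h3
      unfold sep at h3
      rw [hf0 a, hf0 b] at h3
      have g1 : ordFn (gatherL s X) a z = 0 := if_neg (by have := gather_l_lt hs hzX ha; omega)
      have g2 : ordFn (gatherL s X) b z = 0 := if_neg (by have := gather_l_lt hs hzX hb; omega)
      rw [g1, g2]
      linear_combination (-1 : ZMod 2) * h3

theorem gather_l_sep (hs : IsEnum s) (h1 : ∀ x, s.head? = some x → x ∈ X) (h2 : ∀ x, s.getLast? = some x → x ∉ X)
    {a b c d : V} (hab : Blk s X a b) (ac : a ≠ c) (ad : a ≠ d) (bc : b ≠ c) (bd : b ≠ d) :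
    sep (ordFn (gatherL s X)) a b c d = sep (ordFn s) a b c d := by
  have e1 := gather_l_blk hs h1 h2 hab ac bc
  have e2 := gather_l_blk hs h1 h2 hab ad bd
  unfold sep
  linear_combination e1 + e2

theorem gather_l_sep' (hs : IsEnum s) (h1 : ∀ x, s.head? = some x → x ∈ X) (h2 : ∀ x, s.getLast? = some x → x ∉ X)
    {a b c d : V} (hcd : Blk s X c d) (ac : a ≠ c) (ad : a ≠ d) (bc : b ≠ c) (bd : b ≠ d) :
    sep (ordFn (gatherL s X)) a b c d = sep (ordFn s) a b c d := by
  rw [sep_comm (ordFn_skew (gather_l_enum hs)) ac ad bc bd, gather_l_sep hs h1 h2 hcd ac.symm bc.symm ad.symm bd.symm,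
    sep_comm (ordFn_skew hs) ac.symm bc.symm ad.symm bd.symm]

end


open Classical in
/-- s is rotated such that it starts with an element of X and ends with an element not in X: then no block contains elements from both
ends, and s' = (elements of X) ++ (elements not in X) keeps all blocks together in their order. PROOF. CI s' X: clear. WO: let ab, cd be rigid;
rigid_blk: say Blk s X a b; not crossing in s. If c and d are not in the block of a, then in s' none of them is between a and b. If exactly one of
c, d is in the block (say c), crossing of ab and cd in s and in s' both mean that c is between a and b in the block. If both are in the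
block: same relative order in s and s'. Intervals Y of s which do not cross X: Y or Yᶜ is contained in X or in Xᶜ and then in one block (as
it is an interval of s): an interval of a block is an interval of s'. -/
theorem gather (hG : PrimeG G) (hs : IsEnum s) (hw : IsWO G s) (hX : IsPCut G X) (hn : Nontriv X)
    (h1 : ∀ x, s.head? = some x → x ∈ X) (h2 : ∀ x, s.getLast? = some x → x ∉ X) :
    IsEnum (s.filter (fun x => decide (x ∈ X)) ++ s.filter (fun x => decide (x ∉ X))) ∧
      IsWO G (s.filter (fun x => decide (x ∈ X)) ++ s.filter (fun x => decide (x ∉ X))) ∧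
      CI (s.filter (fun x => decide (x ∈ X)) ++ s.filter (fun x => decide (x ∉ X))) X ∧
      ∀ Y, CI s Y → ¬ Crossing X Y → CI (s.filter (fun x => decide (x ∈ X)) ++ s.filter (fun x => decide (x ∉ X))) Y := by
  change IsEnum (gatherL s X) ∧ IsWO G (gatherL s X) ∧ CI (gatherL s X) X ∧ ∀ Y, CI s Y → ¬ Crossing X Y → CI (gatherL s X) Y
  have hE : IsEnum (gatherL s X) := gather_l_enum hs
  refine ⟨hE, ?_, ?_, ?_⟩
  · rw [isWO_iff hE]
    intro a b c d hr
    have h3 := (isWO_iff hs).1 hw a b c d hr
    rcases rigid_blk hG hs hw hX hn hr with h4 | h4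
    · rw [gather_l_sep hs h1 h2 h4 hr.ac hr.ad hr.bc hr.bd, h3]
    · rw [gather_l_sep' hs h1 h2 h4 hr.ac hr.ad hr.bc hr.bd, h3]
  · intro x hx x' hx' y hy y' hy'
    have g1 : ordFn (gatherL s X) x y = 1 := if_pos (gather_l_lt hs hx hy)
    have g2 : ordFn (gatherL s X) x y' = 1 := if_pos (gather_l_lt hs hx hy')
    have g3 : ordFn (gatherL s X) x' y = 1 := if_pos (gather_l_lt hs hx' hy)
    have g4 : ordFn (gatherL s X) x' y' = 1 := if_pos (gather_l_lt hs hx' hy')
    unfold sep
    rw [g1, g2, g3, g4]
    decide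
  · intro Y hY hc y hy y' hy' z hz z' hz'
    have n1 := gather_ne hy hz
    have n2 := gather_ne hy hz'
    have n3 := gather_ne hy' hz
    have n4 := gather_ne hy' hz'
    have hY1 := hY y hy y' hy' z hz z' hz'
    -- Y or its complement is on one side of X
    have blkY : (y ∈ X ↔ y' ∈ X) → (∀ p, (p ∈ X ↔ y ∉ X) → p ∉ Y) → Blk s X y y' := by
      intro g1 g2
      refine ⟨g1, fun p p' hp hp' => ?_⟩
      rw [not_cross_iff hs (gather_ne hy (g2 p hp)) (gather_ne hy (g2 p' hp')) (gather_ne hy' (g2 p hp))
        (gather_ne hy' (g2 p' hp'))]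
      exact hY y hy y' hy' p (g2 p hp) p' (g2 p' hp')
    have blkZ : (z ∈ X ↔ z' ∈ X) → (∀ p, (p ∈ X ↔ z ∉ X) → p ∈ Y) → Blk s X z z' := by
      intro g1 g2
      refine ⟨g1, fun p p' hp hp' => ?_⟩
      rw [not_cross_iff hs (gather_ne (g2 p hp) hz).symm (gather_ne (g2 p' hp') hz).symm
        (gather_ne (g2 p hp) hz').symm (gather_ne (g2 p' hp') hz').symm,
        sep_comm (ordFn_skew hs) (gather_ne (g2 p hp) hz).symm (gather_ne (g2 p' hp') hz).symm
        (gather_ne (g2 p hp) hz').symm (gather_ne (g2 p' hp') hz').symm]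
      exact hY p (g2 p hp) p' (g2 p' hp') z hz z' hz'
    have finY : Blk s X y y' → sep (ordFn (gatherL s X)) y y' z z' = 0 := by
      intro g
      rw [gather_l_sep hs h1 h2 g n1 n2 n3 n4, hY1]
    have finZ : Blk s X z z' → sep (ordFn (gatherL s X)) y y' z z' = 0 := by
      intro g
      rw [gather_l_sep' hs h1 h2 g n1 n2 n3 n4, hY1]
    by_cases c1 : ∃ p, p ∈ X ∧ p ∈ Y
    · by_cases c2 : ∃ p, p ∈ X ∧ p ∉ Y
      · by_cases c3 : ∃ p, p ∉ X ∧ p ∈ Y
        · by_cases c4 : ∃ p, p ∉ X ∧ p ∉ Y
          · exact absurd ⟨c1, c2, c3, c4⟩ hc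
          · push Not at c4
            have k1 : z ∈ X := by
              by_contra t
              exact hz (c4 z t)
            have k2 : z' ∈ X := by
              by_contra t
              exact hz' (c4 z' t)
            exact finZ (blkZ (iff_of_true k1 k2) fun p hp => c4 p fun t => hp.1 t k1)
        · push Not at c3
          have k1 : y ∈ X := by
            by_contra t
            exact c3 y t hy
          have k2 : y' ∈ X := by
            by_contra t
            exact c3 y' t hy'
          exact finY (blkY (iff_of_true k1 k2) fun p hp => c3 p fun t => hp.1 t k1)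
      · push Not at c2
        have k1 : z ∉ X := fun t => hz (c2 z t)
        have k2 : z' ∉ X := fun t => hz' (c2 z' t)
        exact finZ (blkZ (iff_of_false k1 k2) fun p hp => c2 p (hp.2 k1))
    · push Not at c1
      have k1 : y ∉ X := fun t => c1 y t hy
      have k2 : y' ∉ X := fun t => c1 y' t hy'
      exact finY (blkY (iff_of_false k1 k2) fun p hp => c1 p (hp.2 k1))

theorem gather_ci_rot {p q : List V} (h : IsEnum (p ++ q)) {Y : Set V} (hY : CI (p ++ q) Y) : CI (q ++ p) Y := by
  intro x hx x' hx' y hy y' hy'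
  rw [sep_rot h (gather_ne hx hy) (gather_ne hx hy') (gather_ne hx' hy) (gather_ne hx' hy')]
  exact hY x hx x' hx' y hy y' hy'

/-- a rotation which starts in X and ends outside of X -/
theorem gather_rot (hs : IsEnum s) (hw : IsWO G s) (hn : Nontriv X) :
    ∃ s₁, IsEnum s₁ ∧ IsWO G s₁ ∧ (∀ Y, CI s Y → CI s₁ Y) ∧ (∀ x, s₁.head? = some x → x ∈ X) ∧
      ∀ x, s₁.getLast? = some x → x ∉ X := by
  classical
  obtain ⟨⟨x₀, hx₀, _⟩, v, hv, _⟩ := hn
  obtain ⟨u, t, hut⟩ := List.append_of_mem (hs.2 v)
  subst hut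
  have r1 : IsEnum ((v :: t) ++ u) := isEnum_rot hs
  have r2 : IsWO G ((v :: t) ++ u) := isWO_rot hs hw
  have r3 : ∀ Y, CI (u ++ v :: t) Y → CI ((v :: t) ++ u) Y := fun Y hY => gather_ci_rot hs hY
  obtain ⟨r, hr⟩ : ∃ r, r = (v :: t) ++ u := ⟨_, rfl⟩
  rw [← hr] at r1 r2
  obtain ⟨p, hp⟩ : ∃ p, p = r.takeWhile (fun z => decide (z ∉ X)) := ⟨_, rfl⟩
  obtain ⟨q, hq⟩ : ∃ q, q = r.dropWhile (fun z => decide (z ∉ X)) := ⟨_, rfl⟩
  have hrpq : r = p ++ q := by
    rw [hp, hq]
    exact List.takeWhile_append_dropWhile.symm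
  have hpX : ∀ z ∈ p, z ∉ X := by
    intro z hz
    rw [hp] at hz
    have h1 := List.mem_takeWhile_imp (p := fun z => decide (z ∉ X)) hz
    exact of_decide_eq_true h1
  have hqne : q ≠ [] := by
    intro e
    rw [e, List.append_nil] at hrpq
    exact hpX x₀ (hrpq ▸ r1.2 x₀) hx₀
  have hpne : p ≠ [] := by
    rw [hp, hr, List.cons_append, List.takeWhile_cons_of_pos (p := fun z => decide (z ∉ X)) (decide_eq_true hv)]
    exact List.cons_ne_nil _ _
  have r1' : IsEnum (p ++ q) := hrpq ▸ r1
  have r2' : IsWO G (p ++ q) := hrpq ▸ r2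
  refine ⟨q ++ p, isEnum_rot r1', isWO_rot r1' r2', ?_, ?_, ?_⟩
  · intro Y hY
    refine gather_ci_rot r1' ?_
    rw [← hrpq, hr]
    exact r3 Y hY
  · intro x hx
    have h1 := List.head_dropWhile_not (fun z => decide (z ∉ X)) (l := r) (by
      rw [← hq]
      exact hqne)
    simp only [← hq] at h1
    have h2 : (q ++ p).head? = some (q.head hqne) := by
      rw [List.head?_append, List.head?_eq_some_head hqne, Option.some_or]
    rw [h2, Option.some.injEq] at hx
    rw [hx] at h1
    by_contra hcon
    exact absurd h1 (by rw [decide_eq_true hcon]; decide)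
  · intro x hx
    have h2 : (q ++ p).getLast? = some (p.getLast hpne) := by
      rw [List.getLast?_append, List.getLast?_eq_some_getLast hpne, Option.some_or]
    rw [h2, Option.some.injEq] at hx
    rw [← hx]
    exact hpX _ (List.getLast_mem hpne)

/-- existence form, for a finite cross-free family. PROOF: rotate (isEnum_rot, isWO_rot, sep_rot) and gather, one member of L after the other.
-/
theorem gather_list (hG : PrimeG G) (L : List (Set V)) (hs : IsEnum s) (hw : IsWO G s) (hp : ∀ Y ∈ L, IsPCut G Y)
    (hn : ∀ Y ∈ L, Nontriv Y) (hc : ∀ Y ∈ L, ∀ Z ∈ L, ¬ Crossing Y Z) : ∃ s', IsEnum s' ∧ IsWO G s' ∧ ∀ Y ∈ L, CI s' Y := by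
  induction L with
  | nil => exact ⟨s, hs, hw, fun Y hY => absurd hY List.not_mem_nil⟩
  | cons X L ih =>
    obtain ⟨s₀, h1, h2, h3⟩ := ih (fun Y hY => hp Y (List.mem_cons_of_mem _ hY))
      (fun Y hY => hn Y (List.mem_cons_of_mem _ hY))
      (fun Y hY Z hZ => hc Y (List.mem_cons_of_mem _ hY) Z (List.mem_cons_of_mem _ hZ))
    obtain ⟨s₁, g1, g2, g3, g4, g5⟩ := gather_rot h1 h2 (hn X List.mem_cons_self)
    obtain ⟨k1, k2, k3, k4⟩ := gather hG g1 g2 (hp X List.mem_cons_self) (hn X List.mem_cons_self) g4 g5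
    refine ⟨_, k1, k2, ?_⟩
    intro Y hY
    rcases List.mem_cons.1 hY with h5 | h5
    · rw [h5]
      exact k3
    · exact k4 Y (g3 Y (h3 Y h5)) (hc X List.mem_cons_self Y hY)

end Pool.Agent.SOP
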