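import Pool.Agent.SOC.KSpan

/-! Project SOP, module KStrong (size 4): a strengthening of `kspan` (SOC/KSpan.lean).

PROOF: copy SOC/KSpan.lean (namespace Pool.Agent.SOP, `open Pool.Agent.SOC`, do not redefine cutSum) and change:
(1) in `kspan_step` the set P := {S | NMod w v S ∧ (∀ N, NMod w v N → ¬ Crossing S N) ∧ ∃ x ∈ S, ∃ y ∈ S, x ≠ y ∧ nrm w v x y = 1} (V - {v} is not crossed by
anything: the fourth corner is empty up to v: N with v ∉ N has the corner (∉ S, ∈ N) empty). IsPCut G S follows from pcut_of_strong (kspan_red).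
(2) `hmin`: T ⊆ S, NMod u v T, T not crossed by modules of u. Then T is not crossed by any module N of w: if it is, N meets S and does not contain S, S
is not crossed by N and v is in neither, so N ⊆ S, and then N is a module of u (u = nrm w v inside S, 0 outside): contradiction. So T ∈ P if it
contains an edge. Record this property also for the sets of the list: M1, M2 (as before), M1 ∪ M2 (a module N of w crossing it meets S and
does not contain S, so N ⊆ S, N is a module of u; `key` gives the contradiction), S and the classes cls x.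
(3) statement of `kspan_step`: every X ∈ L satisfies IsPCut G X ∧ v ∉ X ∧ ∀ N, NMod w v N → ¬ Crossing X N.
(4) `kspan_ind_step`: modules of w are modules of w2 = w + cutSum L: x, x' ∈ N, y ∉ N, y ≠ v: for X ∈ L: y ∉ X: both terms 0; y ∈ X: x ∈ X ↔ x' ∈ X since N does not cross X
(corners: x, x', y, v). So the sets of L' (for w2) are not crossed by the modules of w. -/

set_option autoImplicit false

namespace Pool.Agent.SOP

open Pool.Agent.SOC

variable {V : Type*}

/-! ### the function of a set -/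

open Classical in
private noncomputable def kspan_ind (X : Set V) (x y : V) : ZMod 2 := if x ∈ X ∧ y ∈ X then 1 else 0

private theorem kspan_cutSum_nil (x y : V) : cutSum ([] : List (Set V)) x y = 0 := rfl

private theorem kspan_cutSum_cons (X : Set V) (L : List (Set V)) (x y : V) :
    cutSum (X :: L) x y = kspan_ind X x y + cutSum L x y := by
  unfold cutSum kspan_ind
  rw [List.map_cons, List.sum_cons]

private theorem kspan_cutSum_append (L L' : List (Set V)) (x y : V) :
    cutSum (L ++ L') x y = cutSum L x y + cutSum L' x y := by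
  unfold cutSum
  rw [List.map_append, List.sum_append]

private theorem kspan_ind_symm (X : Set V) (x y : V) : kspan_ind X x y = kspan_ind X y x := by
  by_cases hx : x ∈ X <;> by_cases hy : y ∈ X <;> simp [kspan_ind, hx, hy]

private theorem kspan_cutSum_symm (L : List (Set V)) (x y : V) : cutSum L x y = cutSum L y x := by
  induction L with
  | nil => rfl
  | cons X L ih => rw [kspan_cutSum_cons, kspan_cutSum_cons, ih, kspan_ind_symm]

private theorem kspan_ind_left {X : Set V} {x : V} (h : x ∉ X) (y : V) : kspan_ind X x y = 0 := by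
  unfold kspan_ind
  rw [if_neg (fun h' => h h'.1)]

private theorem kspan_ind_right {X : Set V} {y : V} (h : y ∉ X) (x : V) : kspan_ind X x y = 0 := by
  unfold kspan_ind
  rw [if_neg (fun h' => h h'.2)]

private theorem kspan_ind_mem {X : Set V} {x y : V} (h : x ∈ X) (h' : y ∈ X) : kspan_ind X x y = 1 := by
  unfold kspan_ind
  rw [if_pos ⟨h, h'⟩]

private theorem kspan_cutSum_left {L : List (Set V)} {x : V} (h : ∀ X ∈ L, x ∉ X) (y : V) :
    cutSum L x y = 0 := by
  induction L with
  | nil => rfl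
  | cons X L ih =>
    rw [kspan_cutSum_cons, kspan_ind_left (h X List.mem_cons_self), zero_add]
    exact ih (fun Y hY => h Y (List.mem_cons_of_mem _ hY))

private theorem kspan_ind_sol {G : SimpleGraph V} {X : Set V} (hX : IsPCut G X) :
    IsSol G (kspan_ind X) := by
  intro a b c d hr
  have e2 : (1 : ZMod 2) + 1 = 0 := by decide
  unfold sep
  by_cases ha : a ∈ X <;> by_cases hb : b ∈ X <;> by_cases hc : c ∈ X <;> by_cases hd : d ∈ X
  · simp only [kspan_ind_mem ha hc, kspan_ind_mem ha hd, kspan_ind_mem hb hc, kspan_ind_mem hb hd]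
    decide
  · simp only [kspan_ind_mem ha hc, kspan_ind_mem hb hc, kspan_ind_right hd]
    decide
  · simp only [kspan_ind_mem ha hd, kspan_ind_mem hb hd, kspan_ind_right hc]
    decide
  · simp only [kspan_ind_right hd, kspan_ind_right hc]
    decide
  · simp only [kspan_ind_mem ha hd, kspan_ind_mem ha hc, kspan_ind_left hb]
    decide
  · exact absurd hr (hX a ha c hc b hb d hd)
  · exact absurd hr.swap' (hX a ha d hd b hb c hc)
  · simp only [kspan_ind_right hd, kspan_ind_right hc]
    decide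
  · simp only [kspan_ind_mem hb hd, kspan_ind_mem hb hc, kspan_ind_left ha]
    decide
  · exact absurd hr.swap (hX b hb c hc a ha d hd)
  · exact absurd hr.swap.swap' (hX b hb d hd a ha c hc)
  · simp only [kspan_ind_right hd, kspan_ind_right hc]
    decide
  all_goals
    simp only [kspan_ind_left ha, kspan_ind_left hb]
    decide

private theorem kspan_sol_add {G : SimpleGraph V} {w w' : V → V → ZMod 2} (h : IsSol G w)
    (h' : IsSol G w') : IsSol G (fun x y => w x y + w' x y) := by
  intro a b c d hr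
  have h1 := h a b c d hr
  have h2 := h' a b c d hr
  unfold sep at *
  linear_combination h1 + h2

private theorem kspan_cutSum_sol {G : SimpleGraph V} {L : List (Set V)} (h : ∀ X ∈ L, IsPCut G X) :
    IsSol G (cutSum L) := by
  induction L with
  | nil =>
    intro a b c d _
    unfold sep
    simp only [kspan_cutSum_nil]
    decide
  | cons X L ih =>
    have h1 := kspan_sol_add (kspan_ind_sol (h X List.mem_cons_self))
      (ih (fun Y hY => h Y (List.mem_cons_of_mem _ hY)))
    intro a b c d hr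
    have h2 := h1 a b c d hr
    unfold sep at *
    simp only [kspan_cutSum_cons]
    exact h2

/-! ### restriction to a module -/

open Classical in
private noncomputable def kspan_restr (w : V → V → ZMod 2) (v : V) (S : Set V) (x y : V) : ZMod 2 :=
  if x ∈ S ∧ y ∈ S then nrm w v x y else 0

private theorem kspan_restr_mem {w : V → V → ZMod 2} {v : V} {S : Set V} {x y : V} (h : x ∈ S)
    (h' : y ∈ S) : kspan_restr w v S x y = nrm w v x y := by
  unfold kspan_restr
  rw [if_pos ⟨h, h'⟩]

private theorem kspan_restr_left {w : V → V → ZMod 2} {v : V} {S : Set V} {x : V} (h : x ∉ S)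
    (y : V) : kspan_restr w v S x y = 0 := by
  unfold kspan_restr
  rw [if_neg (fun h' => h h'.1)]

private theorem kspan_restr_right {w : V → V → ZMod 2} {v : V} {S : Set V} {y : V} (h : y ∉ S)
    (x : V) : kspan_restr w v S x y = 0 := by
  unfold kspan_restr
  rw [if_neg (fun h' => h h'.2)]

private theorem kspan_sep_nrm (w : V → V → ZMod 2) (v a b c d : V) :
    sep (nrm w v) a b c d = sep w a b c d := by
  unfold sep nrm
  have t1 := zadd_self (w v a)
  have t2 := zadd_self (w v b)
  have t3 := zadd_self (w v c)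
  have t4 := zadd_self (w v d)
  linear_combination t1 + t2 + t3 + t4

private theorem kspan_nrm_v {w : V → V → ZMod 2} (hw : Skew 0 w) {v a : V} (h : a ≠ v) :
    nrm w v a v = w v v := by
  unfold nrm
  have := hw a v h
  linear_combination this

private theorem kspan_restr_skew {w : V → V → ZMod 2} (hw : Skew 0 w) (v : V) (S : Set V) :
    Skew 0 (kspan_restr w v S) := by
  intro x y hxy
  by_cases hx : x ∈ S
  · by_cases hy : y ∈ S
    · rw [kspan_restr_mem hx hy, kspan_restr_mem hy hx, nrm_symm hw hxy]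
      exact zadd_self _
    · rw [kspan_restr_right hy, kspan_restr_left hy, add_zero]
  · rw [kspan_restr_left hx, kspan_restr_right hx, add_zero]

private theorem kspan_restr_nrm {w : V → V → ZMod 2} {v : V} {S : Set V} (hv : v ∉ S) (x y : V) :
    nrm (kspan_restr w v S) v x y = kspan_restr w v S x y := by
  unfold nrm
  rw [kspan_restr_left hv, kspan_restr_left hv, add_zero, add_zero]

private theorem kspan_restr_sol {G : SimpleGraph V} {w : V → V → ZMod 2} (hw : Skew 0 w)
    (hs : IsSol G w) {v : V} {S : Set V} (hS : NMod w v S) (hP : IsPCut G S) :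
    IsSol G (kspan_restr w v S) := by
  intro a b c d hr
  have h1 : sep (nrm w v) a b c d = 0 := by rw [kspan_sep_nrm]; exact hs a b c d hr
  have mod : ∀ x ∈ S, ∀ x' ∈ S, ∀ y, y ∉ S → nrm w v x y = nrm w v x' y := by
    intro x hx x' hx' y hy
    by_cases hyv : y = v
    · have h1 : x ≠ v := fun h => hS.1 (h ▸ hx)
      have h2 : x' ≠ v := fun h => hS.1 (h ▸ hx')
      rw [hyv, kspan_nrm_v hw h1, kspan_nrm_v hw h2]
    · exact hS.2 x hx x' hx' y hy hyv
  have mod' : ∀ x ∈ S, ∀ x' ∈ S, ∀ y, y ∉ S → nrm w v y x = nrm w v y x' := by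
    intro x hx x' hx' y hy
    rw [nrm_symm hw (v := v) (x := y) (y := x) (fun h : y = x => hy (by rw [h]; exact hx)),
      nrm_symm hw (v := v) (x := y) (y := x') (fun h : y = x' => hy (by rw [h]; exact hx'))]
    exact mod x hx x' hx' y hy
  unfold sep at *
  by_cases ha : a ∈ S <;> by_cases hb : b ∈ S <;> by_cases hc : c ∈ S <;> by_cases hd : d ∈ S
  · simp only [kspan_restr_mem ha hc, kspan_restr_mem ha hd, kspan_restr_mem hb hc,
      kspan_restr_mem hb hd]
    exact h1
  · simp only [kspan_restr_mem ha hc, kspan_restr_mem hb hc, kspan_restr_right hd]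
    have h2 := mod a ha b hb d hd
    have h3 := zadd_self (nrm w v b d)
    linear_combination h1 - h2 - h3
  · simp only [kspan_restr_mem ha hd, kspan_restr_mem hb hd, kspan_restr_right hc]
    have h2 := mod a ha b hb c hc
    have h3 := zadd_self (nrm w v b c)
    linear_combination h1 - h2 - h3
  · simp only [kspan_restr_right hd, kspan_restr_right hc]
    decide
  · simp only [kspan_restr_mem ha hd, kspan_restr_mem ha hc, kspan_restr_left hb]
    have h2 := mod' c hc d hd b hb
    have h3 := zadd_self (nrm w v b d)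
    linear_combination h1 - h2 - h3
  · exact absurd hr (hP a ha c hc b hb d hd)
  · exact absurd hr.swap' (hP a ha d hd b hb c hc)
  · simp only [kspan_restr_right hd, kspan_restr_right hc]
    decide
  · simp only [kspan_restr_mem hb hd, kspan_restr_mem hb hc, kspan_restr_left ha]
    have h2 := mod' c hc d hd a ha
    have h3 := zadd_self (nrm w v a d)
    linear_combination h1 - h2 - h3
  · exact absurd hr.swap (hP b hb c hc a ha d hd)
  · exact absurd hr.swap.swap' (hP b hb d hd a ha c hc)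
  · simp only [kspan_restr_right hd, kspan_restr_right hc]
    decide
  all_goals
    simp only [kspan_restr_left ha, kspan_restr_left hb]
    decide

private theorem kspan_restr_mod {w : V → V → ZMod 2} {v : V} {S : Set V} (hS : NMod w v S)
    {N : Set V} (hN : NMod (kspan_restr w v S) v N) (hNS : N ⊆ S) : NMod w v N := by
  refine ⟨hN.1, fun x hx x' hx' y hy hyv => ?_⟩
  by_cases hyS : y ∈ S
  · have h := hN.2 x hx x' hx' y hy hyv
    rw [kspan_restr_nrm hS.1, kspan_restr_nrm hS.1, kspan_restr_mem (hNS hx) hyS,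
      kspan_restr_mem (hNS hx') hyS] at h
    exact h
  · exact hS.2 x (hNS hx) x' (hNS hx') y hyS hyv

private theorem kspan_red {w : V → V → ZMod 2} (hw : Skew 0 w) {v : V} {X : Set V}
    (h : ∀ N, NMod w v N → ¬ Crossing X N) : ∀ U, IsSplit w U → ¬ Crossing X U := by
  intro U hU hc
  by_cases hv : v ∈ U
  · refine h Uᶜ (nmod_of_split hw (hU.compl hw) (fun h => h hv)) ?_
    obtain ⟨h1, h2, h3, h4⟩ := hc
    refine ⟨h2, ?_, h4, ?_⟩
    · obtain ⟨p, hp1, hp2⟩ := h1
      exact ⟨p, hp1, fun t => t hp2⟩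
    · obtain ⟨p, hp1, hp2⟩ := h3
      exact ⟨p, hp1, fun t => t hp2⟩
  · exact h U (nmod_of_split hw hU hv) hc

private theorem kspan_leave {r : V → V → Prop} {a b : V} (h : Relation.ReflTransGen r a b)
    {T : Set V} (ha : a ∈ T) (hb : b ∉ T) :
    ∃ s t, Relation.ReflTransGen r a s ∧ r s t ∧ s ∈ T ∧ t ∉ T := by
  induction h with
  | refl => exact absurd ha hb
  | tail h1 h2 ih =>
    rename_i c d
    by_cases hc : c ∈ T
    · exact ⟨c, d, h1, h2, hc, hb⟩
    · exact ih hc

/-! ### one step -/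

private theorem kspan_step [Finite V] {G : SimpleGraph V} (hG : G.Preconnected)
    {w : V → V → ZMod 2} (hw : Skew 0 w) (hs : IsSol G w) (v : V)
    (hex : ∃ x y, x ≠ v ∧ y ≠ v ∧ x ≠ y ∧ nrm w v x y = 1) :
    ∃ L : List (Set V), (∀ X ∈ L, IsPCut G X ∧ v ∉ X ∧ ∀ N, NMod w v N → ¬ Crossing X N) ∧
      (∀ x y, x ≠ v → y ≠ v → x ≠ y → nrm w v x y = 0 → cutSum L x y = 0) ∧
      ∃ x y, x ≠ v ∧ y ≠ v ∧ x ≠ y ∧ nrm w v x y = 1 ∧ cutSum L x y = 1 := by
  classical
  have e2 : (1 : ZMod 2) + 1 = 0 := by decide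
  have e10 : (1 : ZMod 2) ≠ 0 := by decide
  let P : Set (Set V) := {S | NMod w v S ∧ (∀ N, NMod w v N → ¬ Crossing S N) ∧
    ∃ x ∈ S, ∃ y ∈ S, x ≠ y ∧ nrm w v x y = 1}
  have hP : P.Nonempty := by
    obtain ⟨x, y, hx, hy, hxy, hval⟩ := hex
    refine ⟨{v}ᶜ, ⟨fun h => h rfl, ?_⟩, ?_, x, hx, y, hy, hxy, hval⟩
    · intro a _ a' _ z hz hzv
      exact absurd (not_not.1 hz) hzv
    · rintro N hN ⟨-, -, ⟨r, hr1, hr2⟩, -⟩
      have h1 : r = v := not_not.1 hr1
      exact hN.1 (h1 ▸ hr2)
  obtain ⟨S, hSmin⟩ := (Set.toFinite P).exists_minimal hP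
  obtain ⟨hSm, hScr, x0, hx0, y0, hy0, hxy0, hval0⟩ := hSmin.prop
  have hSc : IsPCut G S := pcut_of_strong hG hs (kspan_red hw hScr)
  have hvS : v ∉ S := hSm.1
  have hSv : ∀ x ∈ S, x ≠ v := fun x hx e => hvS (e ▸ hx)
  set u := kspan_restr w v S with hudef
  have hu : Skew 0 u := kspan_restr_skew hw v S
  have hus : IsSol G u := kspan_restr_sol hw hs hSm hSc
  have hun : ∀ x y, nrm u v x y = u x y := kspan_restr_nrm hvS
  have hin : ∀ x ∈ S, ∀ y ∈ S, u x y = nrm w v x y := fun x hx y hy => kspan_restr_mem hx hy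
  have hol : ∀ x, x ∉ S → ∀ y, u x y = 0 := fun x hx y => kspan_restr_left hx y
  have hor : ∀ y, y ∉ S → ∀ x, u x y = 0 := fun y hy x => kspan_restr_right hy x
  have husym : ∀ x y, u x y = u y x := by
    intro x y
    by_cases hxy : x = y
    · rw [hxy]
    · exact zadd_eq_zero (hu x y hxy)
  have umod : ∀ N, NMod u v N → ∀ x ∈ N, ∀ x' ∈ N, ∀ y, y ∉ N → y ≠ v → u x y = u x' y := by
    intro N hN x hx x' hx' y hy hyv
    have := hN.2 x hx x' hx' y hy hyv
    rwa [hun, hun] at this
  -- modules of `w` which cross a subset of `S` are modules of `u`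
  have hlift : ∀ T : Set V, T ⊆ S → (∀ N, NMod u v N → ¬ Crossing T N) → ∀ N, NMod w v N → ¬ Crossing T N := by
    intro T hTS hcr N hN hc
    refine hcr N ?_ hc
    obtain ⟨⟨p, hp1, hp2⟩, ⟨q, hq1, hq2⟩, -, -⟩ := hc
    have hNS : ∀ r ∈ N, r ∈ S := by
      intro r hr
      by_contra hrS
      exact hScr N hN ⟨⟨p, hTS hp1, hp2⟩, ⟨q, hTS hq1, hq2⟩, ⟨r, hrS, hr⟩, ⟨v, hvS, hN.1⟩⟩
    refine ⟨hN.1, fun x hx x' hx' y hy hyv => ?_⟩
    rw [hun, hun]
    by_cases hyS : y ∈ S
    · rw [hin x (hNS x hx) y hyS, hin x' (hNS x' hx') y hyS]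
      exact hN.2 x hx x' hx' y hy hyv
    · rw [hor y hyS, hor y hyS]
  -- minimality
  have hmin : ∀ T : Set V, T ⊆ S → T ≠ S → NMod u v T → (∀ N, NMod u v N → ¬ Crossing T N) →
      (IsPCut G T ∧ ∀ N, NMod w v N → ¬ Crossing T N) ∧ ∀ x ∈ T, ∀ y ∈ T, x ≠ y → nrm w v x y = 0 := by
    intro T hTS hne hT hcr
    have h1 : IsPCut G T := pcut_of_strong hG hus (kspan_red hu hcr)
    have h1' := hlift T hTS hcr
    refine ⟨⟨h1, h1'⟩, ?_⟩
    intro x hx y hy hxy
    by_contra hc
    have h2 : T ∈ P := ⟨kspan_restr_mod hSm hT hTS, h1', x, hx, y, hy, hxy,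
      (zmod2_cases _).resolve_left hc⟩
    exact hne (Set.Subset.antisymm hTS (hSmin.le_of_le h2 hTS))
  -- connectivity
  have hconn : ∀ y ∈ S, Conn u v 0 x0 y := by
    by_contra hc
    push Not at hc
    obtain ⟨z, hz, hzc⟩ := hc
    have hCS : {y | Conn u v 0 x0 y} ⊆ S := by
      intro y hy
      rcases Relation.ReflTransGen.cases_tail hy with h | ⟨t, _, h⟩
      · exact h ▸ hx0
      · by_contra hyS
        refine h.2.2.2 ?_
        rw [hun]
        exact hor y hyS t
    have h1 := hmin {y | Conn u v 0 x0 y} hCS (fun e => hzc (e.symm.subset hz))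
      (conn_nmod (hSv x0 hx0)) (fun N hN => conn_strong hu (hSv x0 hx0) hN)
    have h2 : Conn u v 0 x0 y0 := Relation.ReflTransGen.single ⟨hSv x0 hx0, hSv y0 hy0, hxy0, by
      rw [hun, hin x0 hx0 y0 hy0, hval0]; exact e10⟩
    have h3 := h1.2 x0 Relation.ReflTransGen.refl y0 h2 hxy0
    rw [hval0] at h3
    exact e10 h3
  have hcut : ∀ T : Set V, (∃ p ∈ S, p ∈ T) → (∃ q ∈ S, q ∉ T) →
      ∃ s ∈ S, ∃ t ∈ S, s ∈ T ∧ t ∉ T ∧ u s t ≠ 0 := by
    intro T ⟨p, hp, hpT⟩ ⟨q, hq, hqT⟩
    have mem : ∀ s t, u s t ≠ 0 → s ∈ S ∧ t ∈ S := by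
      intro s t h
      constructor
      · by_contra h'
        exact h (hol s h' t)
      · by_contra h'
        exact h (hor t h' s)
    by_cases hx : x0 ∈ T
    · obtain ⟨s, t, _, h, hsT, htT⟩ := kspan_leave (hconn q hq) hx hqT
      have h4 := h.2.2.2
      rw [hun] at h4
      exact ⟨s, (mem s t h4).1, t, (mem s t h4).2, hsT, htT, h4⟩
    · obtain ⟨s, t, _, h, hsT, htT⟩ := kspan_leave (T := Tᶜ) (hconn p hp) hx (fun h => h hpT)
      have h4 := h.2.2.2
      rw [hun, husym] at h4
      exact ⟨t, (mem t s h4).1, s, (mem t s h4).2, not_not.1 htT, hsT, h4⟩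
  set R : V → V → Prop := fun x y => x ∈ S ∧ y ∈ S ∧ x ≠ y ∧ u x y = 0 with hR
  have hRsym : ∀ x y, R x y → R y x := fun x y h => ⟨h.2.1, h.1, h.2.2.1.symm, by
    rw [husym]; exact h.2.2.2⟩
  by_cases hco : ∀ y ∈ S, Relation.ReflTransGen R x0 y
  · -- prime case
    let Q : Set (Set V) := {M | M ⊆ S ∧ M ≠ S ∧ NMod u v M ∧ M.Nonempty}
    have hF : ∀ N, NMod u v N → (∃ p ∈ N, p ∈ S) → N ⊆ S ∨ S ⊆ N := by
      intro N hN ⟨p, hpN, hpS⟩
      by_contra hc
      rw [not_or, Set.not_subset, Set.not_subset] at hc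
      obtain ⟨⟨r, hrN, hrS⟩, ⟨q, hqS, hqN⟩⟩ := hc
      obtain ⟨s, hs1, t, ht1, hsN, htN, h⟩ := hcut N ⟨p, hpS, hpN⟩ ⟨q, hqS, hqN⟩
      apply h
      rw [umod N hN s hsN r hrN t htN (hSv t ht1)]
      exact hol r hrS t
    have hGl : ∀ M, Maximal (· ∈ Q) M → ∀ N, NMod u v N → (∃ p ∈ M, p ∈ N) → S ⊆ N ∨ N ⊆ M := by
      intro M hM N hN ⟨p, hpM, hpN⟩
      obtain ⟨hMS, hMne, hMm, hMn⟩ := hM.prop
      rcases hF N hN ⟨p, hpN, hMS hpM⟩ with hNS | hSN
      swap
      · exact Or.inl hSN
      by_contra hc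
      rw [not_or, Set.not_subset] at hc
      obtain ⟨hSN, hNM⟩ := hc
      obtain ⟨r, hrN, hrM⟩ := Set.not_subset.1 hNM
      by_cases hMN : M ⊆ N
      · have h1 : N ∈ Q := ⟨hNS, fun e => by
          obtain ⟨z, hz, hz'⟩ := hSN
          exact hz' (e.symm.subset hz), hN, ⟨p, hpN⟩⟩
        exact hNM (hM.le_of_ge h1 hMN)
      · obtain ⟨q, hqM, hqN⟩ := Set.not_subset.1 hMN
        have hun' : M ∪ N = S := by
          by_contra hne
          have h1 : M ∪ N ∈ Q := ⟨Set.union_subset hMS hNS, hne, hMm.union hN ⟨p, hpM, hpN⟩,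
            ⟨p, Or.inl hpM⟩⟩
          exact hrM (hM.le_of_ge h1 Set.subset_union_left (Or.inr hrN))
        have hqv : q ≠ v := hSv q (hMS hqM)
        have hcross : ∀ x ∈ M, ∀ y ∈ S, y ∉ M → u x y = u q r := by
          intro x hx y hyS hyM
          have hyN : y ∈ N := (hun'.symm.subset hyS).resolve_left hyM
          rw [umod M hMm x hx q hqM y hyM (hSv y hyS), husym q y,
            umod N hN y hyN r hrN q hqN hqv, husym]
        rcases zmod2_cases (u q r) with h0 | h1
        · obtain ⟨s, hs1, t, ht1, hsN, htN, h⟩ := hcut M ⟨q, hMS hqM, hqM⟩ ⟨r, hNS hrN, hrM⟩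
          exact h ((hcross s hsN t ht1 htN).trans h0)
        · have h2 : Relation.ReflTransGen R q r :=
            (rtg_symm hRsym (hco q (hMS hqM))).trans (hco r (hNS hrN))
          obtain ⟨s, t, _, h, hsM, htM⟩ := kspan_leave h2 hqM hrM
          have h3 := hcross s hsM t h.2.1 htM
          rw [h.2.2.2, h1] at h3
          exact e10 h3.symm
    have hQx : ∀ x ∈ S, ∃ M, x ∈ M ∧ Maximal (· ∈ Q) M := by
      intro x hx
      have h1 : ({x} : Set V) ∈ Q := by
        refine ⟨Set.singleton_subset_iff.2 hx, ?_, ⟨fun h => hSv x hx (Set.mem_singleton_iff.1 h).symm, ?_⟩,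
          Set.singleton_nonempty x⟩
        · intro e
          have h1 : x0 = x := by
            have := e.symm.subset hx0
            exact this
          have h2 : y0 = x := by
            have := e.symm.subset hy0
            exact this
          exact hxy0 (h1.trans h2.symm)
        · intro a ha a' ha' y _ _
          rw [Set.mem_singleton_iff.1 ha, Set.mem_singleton_iff.1 ha']
      obtain ⟨M, hM1, hM2⟩ := (Set.toFinite Q).exists_le_maximal h1
      exact ⟨M, hM1 rfl, hM2⟩
    have hgood : ∀ M, Maximal (· ∈ Q) M →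
        (IsPCut G M ∧ ∀ N, NMod w v N → ¬ Crossing M N) ∧ ∀ x ∈ M, ∀ y ∈ M, x ≠ y → nrm w v x y = 0 := by
      intro M hM
      obtain ⟨hMS, hMne, hMm, hMn⟩ := hM.prop
      refine hmin M hMS hMne hMm ?_
      rintro N hN ⟨⟨p, hpM, hpN⟩, ⟨q, hqM, hqN⟩, ⟨r, hrM, hrN⟩, -⟩
      rcases hGl M hM N hN ⟨p, hpM, hpN⟩ with h | h
      · exact hqN (h (hMS hqM))
      · exact hrM (h hrN)
    obtain ⟨M1, hx1, hM1⟩ := hQx x0 hx0
    obtain ⟨M2, hy2, hM2⟩ := hQx y0 hy0
    obtain ⟨hM1S, hM1ne, hM1m, -⟩ := hM1.prop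
    obtain ⟨hM2S, hM2ne, hM2m, -⟩ := hM2.prop
    have hy1 : y0 ∉ M1 := by
      intro h
      have h1 := (hgood M1 hM1).2 x0 hx1 y0 h hxy0
      rw [hval0] at h1
      exact e10 h1
    have hdis : ∀ z, z ∈ M1 → z ∉ M2 := by
      intro z hz1 hz2
      rcases hGl M1 hM1 M2 hM2m ⟨z, hz1, hz2⟩ with h | h
      · exact hM2ne (Set.Subset.antisymm hM2S h)
      · exact hy1 (h hy2)
    have key : ∀ N, NMod u v N → ∀ a ∈ M1 ∪ M2, a ∈ N → ∀ b, b ∉ M1 ∪ M2 → b ∈ N →
        ∀ a' ∈ M1 ∪ M2, a' ∈ N := by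
      intro N hN a ha haN b hb hbN a' ha'
      have ha'S : a' ∈ S := ha'.elim (fun h => hM1S h) (fun h => hM2S h)
      rcases ha with ha | ha
      · rcases hGl M1 hM1 N hN ⟨a, ha, haN⟩ with h | h
        · exact h ha'S
        · exact absurd (Or.inl (h hbN)) hb
      · rcases hGl M2 hM2 N hN ⟨a, ha, haN⟩ with h | h
        · exact h ha'S
        · exact absurd (Or.inr (h hbN)) hb
    have hXc : IsPCut G (M1 ∪ M2) := by
      intro a ha a' ha' b hb b' hb' hr
      obtain ⟨U, h1, h2, h3, h4, h5⟩ := thmA hG hus hr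
      by_cases hv : v ∈ U
      · have h6 : NMod u v Uᶜ := nmod_of_split hu (h5.compl hu) (fun h => h hv)
        exact key Uᶜ h6 a' ha' h3 b' hb' h4 a ha h1
      · exact h3 (key U (nmod_of_split hu h5 hv) a ha h1 b hb h2 a' ha')
    have hXcr : ∀ N, NMod w v N → ¬ Crossing (M1 ∪ M2) N := by
      refine hlift (M1 ∪ M2) (Set.union_subset hM1S hM2S) ?_
      rintro N hN ⟨⟨p, hp1, hp2⟩, ⟨q, hq1, hq2⟩, ⟨r, hr1, hr2⟩, -⟩
      exact hq2 (key N hN p hp1 hp2 r hr1 hr2 q hq1)
    have hval : ∀ x ∈ M1, ∀ y ∈ M2, nrm w v x y = 1 := by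
      intro x hx y hy
      have hy' : y ∉ M1 := fun h => hdis y h hy
      have hx0' : x0 ∉ M2 := hdis x0 hx1
      rw [← hin x (hM1S hx) y (hM2S hy), umod M1 hM1m x hx x0 hx1 y hy' (hSv y (hM2S hy)), husym x0 y,
        umod M2 hM2m y hy y0 hy2 x0 hx0' (hSv x0 hx0), husym, hin x0 hx0 y0 hy0, hval0]
    refine ⟨[M1 ∪ M2, M1, M2], ?_, ?_, x0, y0, hSv x0 hx0, hSv y0 hy0, hxy0, hval0, ?_⟩
    · intro X hX
      simp only [List.mem_cons, List.not_mem_nil, or_false] at hX
      rcases hX with rfl | rfl | rfl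
      · exact ⟨hXc, fun h => h.elim (fun h => hvS (hM1S h)) (fun h => hvS (hM2S h)), hXcr⟩
      · exact ⟨(hgood _ hM1).1.1, fun h => hvS (hM1S h), (hgood _ hM1).1.2⟩
      · exact ⟨(hgood _ hM2).1.1, fun h => hvS (hM2S h), (hgood _ hM2).1.2⟩
    · intro x y _ _ hxy h0
      rw [kspan_cutSum_cons, kspan_cutSum_cons, kspan_cutSum_cons, kspan_cutSum_nil, add_zero]
      by_cases hx1' : x ∈ M1
      · have hx2' : x ∉ M2 := hdis x hx1'
        by_cases hy1' : y ∈ M1
        · rw [kspan_ind_mem (Set.mem_union_left M2 hx1') (Set.mem_union_left M2 hy1'), kspan_ind_mem hx1' hy1', kspan_ind_left hx2',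
            add_zero]
          exact e2
        · by_cases hy2' : y ∈ M2
          · rw [hval x hx1' y hy2'] at h0
            exact absurd h0 e10
          · rw [kspan_ind_right (X := M1 ∪ M2) (fun h => h.elim hy1' hy2'), kspan_ind_right hy1',
              kspan_ind_right hy2', add_zero, add_zero]
      · by_cases hx2' : x ∈ M2
        · by_cases hy2' : y ∈ M2
          · rw [kspan_ind_mem (Set.mem_union_right M1 hx2') (Set.mem_union_right M1 hy2'), kspan_ind_mem hx2' hy2',
              kspan_ind_left hx1', zero_add]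
            exact e2
          · by_cases hy1' : y ∈ M1
            · rw [nrm_symm hw hxy, hval y hy1' x hx2'] at h0
              exact absurd h0 e10
            · rw [kspan_ind_right (X := M1 ∪ M2) (fun h => h.elim hy1' hy2'), kspan_ind_right hy1',
                kspan_ind_right hy2', add_zero, add_zero]
        · rw [kspan_ind_left (X := M1 ∪ M2) (fun h => h.elim hx1' hx2'), kspan_ind_left hx1', kspan_ind_left hx2',
            add_zero, add_zero]
    · rw [kspan_cutSum_cons, kspan_cutSum_cons, kspan_cutSum_cons, kspan_cutSum_nil, add_zero,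
        kspan_ind_mem (Set.mem_union_left M2 hx1) (Set.mem_union_right M1 hy2), kspan_ind_right hy1, kspan_ind_left (hdis x0 hx1),
        add_zero, add_zero]
  · -- the complement is disconnected
    push Not at hco
    obtain ⟨y1, hy1, hy1n⟩ := hco
    set cls : V → Set V := fun x => {y | Relation.ReflTransGen R x y} with hcls
    have hclsS : ∀ x ∈ S, cls x ⊆ S := by
      intro x hx y hy
      rcases Relation.ReflTransGen.cases_tail hy with h | ⟨t, _, h⟩
      · exact h ▸ hx
      · exact h.2.1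
    have hclsne : ∀ x ∈ S, ∃ z ∈ S, z ∉ cls x := by
      intro x hx
      by_contra hc
      push Not at hc
      exact hy1n ((rtg_symm hRsym (hc x0 hx0)).trans (hc y1 hy1))
    have hone : ∀ x ∈ S, ∀ p ∈ cls x, ∀ y ∈ S, y ∉ cls x → u p y = 1 := by
      intro x hx p hp y hy hyc
      refine (zmod2_cases _).resolve_left (fun h => hyc ?_)
      exact Relation.ReflTransGen.tail hp ⟨hclsS x hx hp, hy, fun e => hyc (e ▸ hp), h⟩
    have hclsm : ∀ x ∈ S, NMod u v (cls x) := by
      intro x hx
      refine ⟨fun h => hvS (hclsS x hx h), ?_⟩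
      intro p hp p' hp' y hy hyv
      rw [hun, hun]
      by_cases hyS : y ∈ S
      · rw [hone x hx p hp y hyS hy, hone x hx p' hp' y hyS hy]
      · rw [hor y hyS, hor y hyS]
    have hclsc : ∀ x ∈ S, ∀ N, NMod u v N → ¬ Crossing (cls x) N := by
      rintro x hx N hN ⟨⟨p, hpC, hpN⟩, ⟨q, hqC, hqN⟩, ⟨r, hrC, hrN⟩, -⟩
      have hpq : Relation.ReflTransGen R p q := (rtg_symm hRsym hpC).trans hqC
      obtain ⟨s, t, hps, hst, hsN, htN⟩ := kspan_leave hpq hpN hqN
      have hsC : s ∈ cls x := Relation.ReflTransGen.trans hpC hps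
      have htC : t ∈ cls x := Relation.ReflTransGen.tail hsC hst
      have htS : t ∈ S := hst.2.1
      have base : ∀ r, r ∈ S → r ∉ cls x → r ∈ N → False := by
        intro r hrS hrC hrN
        have h1 := umod N hN s hsN r hrN t htN (hSv t htS)
        rw [hst.2.2.2, husym, hone x hx t htC r hrS hrC] at h1
        exact e10 h1.symm
      by_cases hrS : r ∈ S
      · exact base r hrS hrC hrN
      · obtain ⟨z, hzS, hzC⟩ := hclsne x hx
        by_cases hzN : z ∈ N
        · exact base z hzS hzC hzN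
        · have h1 := umod N hN s hsN r hrN z hzN (hSv z hzS)
          rw [hone x hx s hsC z hzS hzC, hol r hrS] at h1
          exact e10 h1
    have hclsg : ∀ x ∈ S, (IsPCut G (cls x) ∧ ∀ N, NMod w v N → ¬ Crossing (cls x) N) ∧
        ∀ a ∈ cls x, ∀ b ∈ cls x, a ≠ b → nrm w v a b = 0 := by
      intro x hx
      refine hmin (cls x) (hclsS x hx) ?_ (hclsm x hx) (hclsc x hx)
      intro e
      obtain ⟨z, hzS, hzC⟩ := hclsne x hx
      exact hzC (e.symm.subset hzS)
    have := Fintype.ofFinite V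
    set F : Finset (Set V) := (Finset.univ.filter (· ∈ S)).image cls with hFdef
    have hFmem : ∀ X ∈ F, ∃ x ∈ S, X = cls x := by
      intro X hX
      rw [hFdef, Finset.mem_image] at hX
      obtain ⟨x, hx, rfl⟩ := hX
      exact ⟨x, (Finset.mem_filter.1 hx).2, rfl⟩
    have hFsum : ∀ x y, cutSum F.toList x y = ∑ X ∈ F, kspan_ind X x y := by
      intro x y
      unfold cutSum kspan_ind
      exact Finset.sum_map_toList F _
    have heqc : ∀ x y, y ∈ cls x → cls x = cls y := by
      intro x y hy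
      ext z
      exact ⟨fun hz => (rtg_symm hRsym hy).trans hz, fun hz => Relation.ReflTransGen.trans hy hz⟩
    have hS1 : ∀ x ∈ S, ∀ y ∈ S, x ≠ y → cutSum (S :: F.toList) x y = nrm w v x y := by
      intro x hx y hy hxy
      rw [kspan_cutSum_cons, kspan_ind_mem hx hy, hFsum]
      by_cases hyc : y ∈ cls x
      · rw [Finset.sum_eq_single (cls x)]
        · rw [kspan_ind_mem (show x ∈ cls x from Relation.ReflTransGen.refl) hyc,
            (hclsg x hx).2 x Relation.ReflTransGen.refl y hyc hxy]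
          exact e2
        · intro X hX hne
          obtain ⟨z, hz, rfl⟩ := hFmem X hX
          refine kspan_ind_left (fun h => hne ?_) y
          exact heqc z x h
        · intro h
          exact absurd (Finset.mem_image.2 ⟨x, Finset.mem_filter.2 ⟨Finset.mem_univ _, hx⟩, rfl⟩) h
      · rw [Finset.sum_eq_zero, add_zero, ← hin x hx y hy,
          hone x hx x Relation.ReflTransGen.refl y hy hyc]
        intro X hX
        obtain ⟨z, hz, rfl⟩ := hFmem X hX
        by_cases hxz : x ∈ cls z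
        · refine kspan_ind_right (fun h => hyc ?_) x
          rw [← heqc z x hxz]
          exact h
        · exact kspan_ind_left hxz y
    have hsub : ∀ X ∈ S :: F.toList, X ⊆ S := by
      intro X hX
      rcases List.mem_cons.1 hX with rfl | hX
      · exact subset_rfl
      · obtain ⟨z, hz, rfl⟩ := hFmem X (Finset.mem_toList.1 hX)
        exact hclsS z hz
    refine ⟨S :: F.toList, ?_, ?_, x0, y0, hSv x0 hx0, hSv y0 hy0, hxy0, hval0, ?_⟩
    · intro X hX
      have hXX : IsPCut G X ∧ ∀ N, NMod w v N → ¬ Crossing X N := by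
        rcases List.mem_cons.1 hX with rfl | hX
        · exact ⟨hSc, hScr⟩
        · obtain ⟨z, hz, rfl⟩ := hFmem X (Finset.mem_toList.1 hX)
          exact (hclsg z hz).1
      exact ⟨hXX.1, fun h => hvS (hsub X hX h), hXX.2⟩
    · intro x y _ _ hxy h0
      by_cases hx : x ∈ S
      · by_cases hy : y ∈ S
        · rw [hS1 x hx y hy hxy, h0]
        · rw [kspan_cutSum_symm]
          exact kspan_cutSum_left (fun X hX h => hy (hsub X hX h)) x
      · exact kspan_cutSum_left (fun X hX h => hx (hsub X hX h)) y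
    · rw [hS1 x0 hx0 y0 hy0 hxy0, hval0]

private theorem kstrong_cutSum_congr {L : List (Set V)} {x x' y : V}
    (h : ∀ X ∈ L, kspan_ind X x y = kspan_ind X x' y) : cutSum L x y = cutSum L x' y := by
  induction L with
  | nil => rfl
  | cons X L ih =>
    rw [kspan_cutSum_cons, kspan_cutSum_cons, h X List.mem_cons_self,
      ih (fun Y hY => h Y (List.mem_cons_of_mem _ hY))]

private theorem kspan_ind_step [Finite V] {G : SimpleGraph V} (hG : G.Preconnected) (v : V) (n : ℕ) :
    ∀ w : V → V → ZMod 2, Skew 0 w → IsSol G w →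
      {p : V × V | p.1 ≠ v ∧ p.2 ≠ v ∧ p.1 ≠ p.2 ∧ nrm w v p.1 p.2 = 1}.ncard = n →
      ∃ L : List (Set V), (∀ X ∈ L, IsPCut G X ∧ v ∉ X ∧ ∀ N, NMod w v N → ¬ Crossing X N) ∧
        ∀ x y, x ≠ v → y ≠ v → x ≠ y → nrm w v x y = cutSum L x y := by
  induction n using Nat.strong_induction_on with
  | _ n ih =>
    intro w hw hs hn
    by_cases hex : ∃ x y, x ≠ v ∧ y ≠ v ∧ x ≠ y ∧ nrm w v x y = 1
    · obtain ⟨L, hL1, hL2, x1, y1, hx1, hy1, hxy1, hv1, hc1⟩ := kspan_step hG hw hs v hex
      set w2 : V → V → ZMod 2 := fun x y => w x y + cutSum L x y with hw2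
      have hvL : ∀ y, cutSum L v y = 0 := fun y => kspan_cutSum_left (fun X hX => (hL1 X hX).2.1) y
      have hnrm : ∀ x y, nrm w2 v x y = nrm w v x y + cutSum L x y := by
        intro x y
        unfold nrm
        simp only [hw2, hvL]
        ring
      have hsk : Skew 0 w2 := by
        intro x y hxy
        have h1 := hw x y hxy
        have h2 := zadd_self (cutSum L x y)
        simp only [hw2]
        rw [kspan_cutSum_symm L y x]
        linear_combination h1 + h2
      have hsol : IsSol G w2 := kspan_sol_add hs (kspan_cutSum_sol (fun X hX => (hL1 X hX).1))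
      have hlt : {p : V × V | p.1 ≠ v ∧ p.2 ≠ v ∧ p.1 ≠ p.2 ∧ nrm w2 v p.1 p.2 = 1}.ncard < n := by
        rw [← hn]
        apply Set.ncard_lt_ncard _ (Set.toFinite _)
        refine ⟨?_, ?_⟩
        · rintro ⟨x, y⟩ ⟨h1, h2, h3, h4⟩
          refine ⟨h1, h2, h3, ?_⟩
          by_contra hc
          have h0 : nrm w v x y = 0 := (zmod2_cases _).resolve_right hc
          have h5 : nrm w2 v x y = 1 := h4
          rw [hnrm, h0, hL2 x y h1 h2 h3 h0] at h5
          exact absurd h5 (by decide)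
        · intro h
          have h1 : (x1, y1) ∈ {p : V × V | p.1 ≠ v ∧ p.2 ≠ v ∧ p.1 ≠ p.2 ∧ nrm w2 v p.1 p.2 = 1} :=
            h ⟨hx1, hy1, hxy1, hv1⟩
          have h2 : nrm w2 v x1 y1 = 1 := h1.2.2.2
          rw [hnrm, hv1, hc1] at h2
          exact absurd h2 (by decide)
      obtain ⟨L', hL'1, hL'2⟩ := ih _ hlt w2 hsk hsol rfl
      have hmodw : ∀ N, NMod w v N → NMod w2 v N := by
        intro N hN
        refine ⟨hN.1, fun x hx x' hx' y hy hyv => ?_⟩
        rw [hnrm, hnrm, hN.2 x hx x' hx' y hy hyv]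
        congr 1
        refine kstrong_cutSum_congr fun X hX => ?_
        obtain ⟨-, hvX, hcX⟩ := hL1 X hX
        by_cases hyX : y ∈ X
        · by_cases hxX : x ∈ X
          · by_cases hxX' : x' ∈ X
            · rw [kspan_ind_mem hxX hyX, kspan_ind_mem hxX' hyX]
            · exact absurd ⟨⟨x, hxX, hx⟩, ⟨y, hyX, hy⟩, ⟨x', hxX', hx'⟩, ⟨v, hvX, hN.1⟩⟩ (hcX N hN)
          · by_cases hxX' : x' ∈ X
            · exact absurd ⟨⟨x', hxX', hx'⟩, ⟨y, hyX, hy⟩, ⟨x, hxX, hx⟩, ⟨v, hvX, hN.1⟩⟩ (hcX N hN)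
            · rw [kspan_ind_left hxX, kspan_ind_left hxX']
        · rw [kspan_ind_right hyX, kspan_ind_right hyX]
      refine ⟨L ++ L', ?_, ?_⟩
      · intro X hX
        rcases List.mem_append.1 hX with h | h
        · exact hL1 X h
        · exact ⟨(hL'1 X h).1, (hL'1 X h).2.1, fun N hN => (hL'1 X h).2.2 N (hmodw N hN)⟩
      · intro x y hx hy hxy
        have h1 := hL'2 x y hx hy hxy
        rw [hnrm] at h1
        rw [kspan_cutSum_append, ← h1]
        have h2 := zadd_self (cutSum L x y)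
        linear_combination -h2
    · refine ⟨[], by simp, ?_⟩
      intro x y hx hy hxy
      rw [kspan_cutSum_nil]
      refine (zmod2_cases _).resolve_right (fun h => hex ⟨x, y, hx, hy, hxy, h⟩)

theorem kspan_strong [Finite V] {G : SimpleGraph V} (hG : G.Preconnected) {w : V → V → ZMod 2}
    (hw : Skew 0 w) (hs : IsSol G w) (v : V) :
    ∃ L : List (Set V), (∀ X ∈ L, IsPCut G X ∧ v ∉ X ∧ ∀ U, IsSplit w U → ¬ Crossing X U) ∧
      ∀ x y, x ≠ v → y ≠ v → x ≠ y → nrm w v x y = cutSum L x y := by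
  obtain ⟨L, h1, h2⟩ := kspan_ind_step hG v _ w hw hs rfl
  exact ⟨L, fun X hX => ⟨(h1 X hX).1, (h1 X hX).2.1, kspan_red hw (h1 X hX).2.2⟩, h2⟩

end Pool.Agent.SOP
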