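import Pool.Agent.SOP.Corner
import Pool.Agent.SOP.KStrong

/-! Project SOP, module TypeC (size 3): two WO orders with the intervals F differ by members of F. -/

set_option autoImplicit false
set_option linter.unusedSectionVars false
set_option linter.unusedSimpArgs false

open Set

namespace Pool.Agent.SOP

open Pool.Agent.SOC Pool.Agent.SOS

variable {V : Type} {G : SimpleGraph V} [DecidableEq V]

theorem typec_sep_nrm (w : V → V → ZMod 2) (v a b c d : V) :
    sep (nrm w v) a b c d = sep w a b c d := by
  unfold sep nrm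
  have t1 := zadd_self (w v a)
  have t2 := zadd_self (w v b)
  have t3 := zadd_self (w v c)
  have t4 := zadd_self (w v d)
  linear_combination t1 + t2 + t3 + t4

theorem typec_cutSum_left {L : List (Set V)} {x : V} (h : ∀ X ∈ L, x ∉ X) (y : V) : cutSum L x y = 0 := by
  classical
  induction L with
  | nil => rfl
  | cons X L ih =>
    have e : cutSum (X :: L) x y = (if x ∈ X ∧ y ∈ X then (1 : ZMod 2) else 0) + cutSum L x y := by
      unfold cutSum
      rw [List.map_cons, List.sum_cons]
    rw [e, if_neg (fun h' => h X List.mem_cons_self h'.1), zero_add]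
    exact ih (fun Y hY => h Y (List.mem_cons_of_mem _ hY))

theorem typec_cutSum_right {L : List (Set V)} {y : V} (h : ∀ X ∈ L, y ∉ X) (x : V) : cutSum L x y = 0 := by
  classical
  induction L with
  | nil => rfl
  | cons X L ih =>
    have e : cutSum (X :: L) x y = (if x ∈ X ∧ y ∈ X then (1 : ZMod 2) else 0) + cutSum L x y := by
      unfold cutSum
      rw [List.map_cons, List.sum_cons]
    rw [e, if_neg (fun h' => h X List.mem_cons_self h'.2), zero_add]
    exact ih (fun Y hY => h Y (List.mem_cons_of_mem _ hY))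

theorem typec_sep_cutSum (L : List (Set V)) (a b c d : V) :
    sep (cutSum L) a b c d = (L.map (fun X => spv X a b c d)).sum := by
  classical
  induction L with
  | nil =>
    show (0 : ZMod 2) + 0 + 0 + 0 = 0
    ring
  | cons X L ih =>
    have e : ∀ x y, cutSum (X :: L) x y = cutSum [X] x y + cutSum L x y := by
      intro x y
      unfold cutSum
      rw [List.map_cons, List.sum_cons, List.map_cons, List.sum_cons, List.map_nil, List.sum_nil, add_zero]
    rw [List.map_cons, List.sum_cons, ← ih, ← sep_ind]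
    unfold sep
    rw [e, e, e, e]
    ring

theorem typec_spv_compl (X : Set V) (a b c d : V) : spv Xᶜ a b c d = spv X a b c d := by
  classical
  have e : Spl Xᶜ a b c d ↔ Spl X a b c d := by
    unfold Spl
    simp only [Set.mem_compl_iff, not_iff_not]
  unfold spv
  by_cases h : Spl X a b c d
  · rw [if_pos h, if_pos (e.2 h)]
  · rw [if_neg h, if_neg (fun h' => h (e.1 h'))]

theorem typec_spv_triv {X : Set V} (hn : ¬ Nontriv X) {a b c d : V} (h1 : a ≠ c) (h2 : a ≠ d) (h3 : b ≠ c)
    (h4 : b ≠ d) : spv X a b c d = 0 := by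
  classical
  unfold spv
  rw [if_neg]
  rintro ⟨e1, e2⟩
  apply hn
  by_cases ha : a ∈ X
  · have hb : b ∉ X := fun hb => e1 ⟨fun _ => hb, fun _ => ha⟩
    by_cases hc : c ∈ X
    · have hd : d ∉ X := fun hd => e2 ⟨fun _ => hd, fun _ => hc⟩
      exact ⟨⟨a, ha, c, hc, h1⟩, ⟨b, hb, d, hd, h4⟩⟩
    · have hd : d ∈ X := by
        by_contra hd
        exact e2 ⟨fun h => absurd h hc, fun h => absurd h hd⟩
      exact ⟨⟨a, ha, d, hd, h2⟩, ⟨b, hb, c, hc, h3⟩⟩
  · have hb : b ∈ X := by
      by_contra hb
      exact e1 ⟨fun h => absurd h ha, fun h => absurd h hb⟩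
    by_cases hc : c ∈ X
    · have hd : d ∉ X := fun hd => e2 ⟨fun _ => hd, fun _ => hc⟩
      exact ⟨⟨b, hb, c, hc, h3⟩, ⟨a, ha, d, hd, h2⟩⟩
    · have hd : d ∈ X := by
        by_contra hd
        exact e2 ⟨fun h => absurd h hc, fun h => absurd h hd⟩
      exact ⟨⟨b, hb, d, hd, h4⟩, ⟨a, ha, c, hc, h1⟩⟩

theorem typec_list {F : Set (Set V)} (hF : Full G F) (L' : List (Set V))
    (h : ∀ X ∈ L', IsPCut G X ∧ ∀ Y ∈ F, ¬ Crossing Y X) :
    ∃ L : List (Set V), (∀ X ∈ L, X ∈ F) ∧ ∀ a b c d, a ≠ c → a ≠ d → b ≠ c → b ≠ d →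
      (L'.map (fun X => spv X a b c d)).sum = (L.map (fun X => spv X a b c d)).sum := by
  induction L' with
  | nil => exact ⟨[], by simp, fun a b c d _ _ _ _ => rfl⟩
  | cons X L' ih =>
    obtain ⟨L, hL1, hL2⟩ := ih (fun Y hY => h Y (List.mem_cons_of_mem _ hY))
    obtain ⟨hX1, hX2⟩ := h X List.mem_cons_self
    by_cases hn : Nontriv X
    · rcases hF X hX1 hn hX2 with hX | hX
      · refine ⟨X :: L, ?_, ?_⟩
        · intro Y hY
          rcases List.mem_cons.1 hY with rfl | hY
          · exact hX
          · exact hL1 Y hY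
        · intro a b c d h1 h2 h3 h4
          rw [List.map_cons, List.sum_cons, List.map_cons, List.sum_cons, hL2 a b c d h1 h2 h3 h4]
      · refine ⟨Xᶜ :: L, ?_, ?_⟩
        · intro Y hY
          rcases List.mem_cons.1 hY with rfl | hY
          · exact hX
          · exact hL1 Y hY
        · intro a b c d h1 h2 h3 h4
          rw [List.map_cons, List.sum_cons, List.map_cons, List.sum_cons, hL2 a b c d h1 h2 h3 h4,
            typec_spv_compl]
    · refine ⟨L, hL1, ?_⟩
      intro a b c d h1 h2 h3 h4
      rw [List.map_cons, List.sum_cons, hL2 a b c d h1 h2 h3 h4, typec_spv_triv hn h1 h2 h3 h4, zero_add]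

/-- PROOF. V nonempty: v := a vertex (V empty: trivial). w x y := ordFn s x y + ordFn s' x y: symmetric, a solution (sum_wo). kspan_strong for w, v: L'. For
X ∈ L': F consists of splits of w (sums), so X crosses no member of F (crossing_comm); Full: X ∈ F, or Xᶜ ∈ F, or X is not Nontriv. L := the list of
the X resp. Xᶜ in F, trivial ones dropped (spv X = 0 if X is not Nontriv and the four elements satisfy the inequalities; spv Xᶜ = spv X).
sep w a b c d = ∑ over L' of spv X a b c d: if all of a, b, c, d are ≠ v: sep (nrm w v) = sep w (kspan_sep_nrm), cutSum, sep_ind. If d = v (then a, b ≠ v; c ≠ v if c ≠ d, c = d: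
both sides 0): sep w a b c v = nrm w v a c + nrm w v b c (up to 2 x) and the same for the cut functions (v ∉ X). If c = v, a = v or b = v:
symmetric. -/
theorem diff_cuts [Finite V] (hG : G.Preconnected) {s s' : List V} (hs : IsEnum s) (hs' : IsEnum s') (hw : IsWO G s)
    (hw' : IsWO G s') {F : Set (Set V)} (hF : Full G F) (h : ∀ X ∈ F, CI s X) (h' : ∀ X ∈ F, CI s' X) :
    ∃ L : List (Set V), (∀ X ∈ L, X ∈ F) ∧ ∀ a b c d, a ≠ c → a ≠ d → b ≠ c → b ≠ d →
      sep (ordFn s') a b c d = sep (ordFn s) a b c d + (L.map (fun X => spv X a b c d)).sum := by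
  classical
  rcases isEmpty_or_nonempty V with hV | ⟨⟨v⟩⟩
  · exact ⟨[], by simp, fun a => hV.elim a⟩
  obtain ⟨w, hwdef⟩ : ∃ w : V → V → ZMod 2, w = fun x y => ordFn s x y + ordFn s' x y := ⟨_, rfl⟩
  obtain ⟨k1, k2⟩ := sum_wo hs hs' hw hw'
  rw [← hwdef] at k1 k2
  obtain ⟨L', hL1, hL2⟩ := kspan_strong hG k1 k2 v
  have hspl : ∀ X ∈ F, IsSplit w X := by
    intro X hX x hx x' hx' y hy y' hy'
    have e1 := h X hX x hx x' hx' y hy y' hy'
    have e2 := h' X hX x hx x' hx' y hy y' hy'
    rw [hwdef]
    unfold sep at e1 e2 ⊢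
    linear_combination e1 + e2
  obtain ⟨L, g1, g2⟩ := typec_list hF L' (fun X hX => ⟨(hL1 X hX).1, fun Y hY hc =>
    (hL1 X hX).2.2 Y (hspl Y hY) (crossing_comm.1 hc)⟩)
  refine ⟨L, g1, fun a b c d h1 h2 h3 h4 => ?_⟩
  rw [← g2 a b c d h1 h2 h3 h4, ← typec_sep_cutSum]
  -- the difference function
  obtain ⟨g, hg⟩ : ∃ g : V → V → ZMod 2, g = fun x y => nrm w v x y + cutSum L' x y := ⟨_, rfl⟩
  have hgv : ∀ x y, x ≠ y → g x y = if x = v ∨ y = v then w v v else 0 := by
    intro x y hxy
    rw [hg]
    dsimp only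
    by_cases hx : x = v
    · subst hx
      rw [if_pos (Or.inl rfl), typec_cutSum_left (fun X hX => (hL1 X hX).2.1), add_zero]
      unfold nrm
      have := zadd_self (w x y)
      linear_combination this
    · by_cases hy : y = v
      · subst hy
        rw [if_pos (Or.inr rfl), typec_cutSum_right (fun X hX => (hL1 X hX).2.1), add_zero]
        unfold nrm
        have := k1 x y hxy
        linear_combination this
      · rw [if_neg (fun h => h.elim hx hy), hL2 x y hx hy hxy]
        exact zadd_self _
  have hsg : sep g a b c d = 0 := by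
    unfold sep
    rw [hgv a c h1, hgv a d h2, hgv b c h3, hgv b d h4]
    have t := zadd_self (w v v)
    by_cases ha : a = v <;> by_cases hb : b = v <;> by_cases hc : c = v <;> by_cases hd : d = v <;>
      first
      | exact absurd (ha.trans hc.symm) h1
      | exact absurd (ha.trans hd.symm) h2
      | exact absurd (hb.trans hc.symm) h3
      | exact absurd (hb.trans hd.symm) h4
      | (simp only [ha, hb, hc, hd, or_self, or_true, true_or, or_false, false_or, if_true, if_false]
         linear_combination 2 * t)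
      | (simp only [ha, hb, hc, hd, or_self, or_true, true_or, or_false, false_or, if_true, if_false]
         linear_combination t)
      | (simp only [ha, hb, hc, hd, or_self, or_true, true_or, or_false, false_or, if_true, if_false]
         ring)
  have e1 : sep g a b c d = sep (nrm w v) a b c d + sep (cutSum L') a b c d := by
    rw [hg]
    unfold sep
    ring
  rw [hsg, typec_sep_nrm] at e1
  have e2 : sep w a b c d = sep (cutSum L') a b c d := zadd_eq_zero e1.symm
  rw [← e2]
  have e3 : sep w a b c d = sep (ordFn s) a b c d + sep (ordFn s') a b c d := by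
    rw [hwdef]
    unfold sep
    ring
  rw [e3]
  have t := zadd_self (sep (ordFn s) a b c d)
  linear_combination -t

end Pool.Agent.SOP
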