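import Pool.Agent.SOP.Defs

/-! Project SOP, module Conn (size 3): basic properties of P-cuts; the sides of a P-cut of a prime graph are connected. -/

set_option autoImplicit false

open Set

namespace Pool.Agent.SOP

open Pool.Agent.SOC Pool.Agent.SOS

variable {V : Type} {G : SimpleGraph V} {X : Set V}

/-- PROOF: Rigid G x y x' y' ↔ Rigid G y x y' x' (symmetry of G). -/
theorem pcut_compl (h : IsPCut G X) : IsPCut G Xᶜ := by
  intro x hx x' hx' y hy y' hy' hr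
  exact h y (not_not.1 hy) y' (not_not.1 hy') x hx x' hx'
    ⟨hr.ab.symm, hr.cd.symm, hr.bd, hr.bc, hr.ad, hr.ac, fun hh => hr.n1 ⟨hh.2, hh.1⟩,
      fun hh => hr.n2 ⟨hh.2, hh.1⟩⟩

theorem crossing_comm {Y : Set V} : Crossing X Y ↔ Crossing Y X := by
  constructor
  · rintro ⟨⟨p, h1, h2⟩, ⟨q, h3, h4⟩, ⟨r, h5, h6⟩, ⟨t, h7, h8⟩⟩
    exact ⟨⟨p, h2, h1⟩, ⟨r, h6, h5⟩, ⟨q, h4, h3⟩, ⟨t, h8, h7⟩⟩
  · rintro ⟨⟨p, h1, h2⟩, ⟨q, h3, h4⟩, ⟨r, h5, h6⟩, ⟨t, h7, h8⟩⟩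
    exact ⟨⟨p, h2, h1⟩, ⟨r, h6, h5⟩, ⟨q, h4, h3⟩, ⟨t, h8, h7⟩⟩

theorem crossing_compl {Y : Set V} : Crossing X Yᶜ ↔ Crossing X Y := by
  constructor
  · rintro ⟨⟨p, h1, h2⟩, ⟨q, h3, h4⟩, ⟨r, h5, h6⟩, ⟨t, h7, h8⟩⟩
    exact ⟨⟨q, h3, not_not.1 h4⟩, ⟨p, h1, h2⟩, ⟨t, h7, not_not.1 h8⟩, ⟨r, h5, h6⟩⟩
  · rintro ⟨⟨p, h1, h2⟩, ⟨q, h3, h4⟩, ⟨r, h5, h6⟩, ⟨t, h7, h8⟩⟩
    exact ⟨⟨q, h3, h4⟩, ⟨p, h1, not_not.2 h2⟩, ⟨t, h7, h8⟩, ⟨r, h5, not_not.2 h6⟩⟩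

theorem nontriv_compl : Nontriv Xᶜ ↔ Nontriv X := by
  constructor
  · rintro ⟨⟨x, hx, x', hx', hne⟩, y, hy, y', hy', hne'⟩
    exact ⟨⟨y, not_not.1 hy, y', not_not.1 hy', hne'⟩, x, hx, x', hx', hne⟩
  · rintro ⟨⟨x, hx, x', hx', hne⟩, y, hy, y', hy', hne'⟩
    exact ⟨⟨y, hy, y', hy', hne'⟩, x, not_not.2 hx, x', not_not.2 hx', hne⟩

/-- PROOF: x ≠ x', y ≠ y' (else G.Adj x' y); so x y, x' y' are not rigid: h gives (x ~ x' ∧ y ~ y') or (x ~ y' ∧ y ~ x'), the second contradicts hn. -/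
theorem pcut_cls (h : IsPCut G X) {x x' y y' : V} (hx : x ∈ X) (hx' : x' ∈ X) (hy : y ∉ X) (hy' : y' ∉ X)
    (h1 : G.Adj x y) (h2 : G.Adj x' y') (hn : ¬ G.Adj x' y) : G.Adj x x' ∧ G.Adj y y' := by
  by_contra hcon
  refine h x hx x' hx' y hy y' hy' ⟨h1, h2, ?_, ?_, ?_, ?_, hcon, ?_⟩
  · rintro rfl
    exact hn h1
  · rintro rfl
    exact hy' hx
  · rintro rfl
    exact hy hx'
  · rintro rfl
    exact hn h2
  · exact fun hh => hn hh.2.symm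

/-- two nonadjacent attached vertices on the same side have the same neighbours on the other side. PROOF: pcut_cls. -/
theorem pcut_same (h : IsPCut G X) {x x' z z' y : V} (hx : x ∈ X) (hx' : x' ∈ X) (hz : z ∉ X) (hz' : z' ∉ X) (h1 : G.Adj x z)
    (h2 : G.Adj x' z') (hn : ¬ G.Adj x x') (hy : y ∉ X) : G.Adj x y ↔ G.Adj x' y := by
  constructor
  · intro h3
    by_contra h4
    exact hn (pcut_cls h hx hx' hy hz' h3 h2 h4).1
  · intro h3
    by_contra h4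
    exact hn (pcut_cls h hx' hx hy hz h3 h1 h4).1.symm

/-- PROOF. G is connected. Suppose x, x' ∈ X are not connected in G[X]. Let K = the vertices of X reachable from x inside X. Every component of
G[X] has an attached vertex (walk in G from it to the outside of X, which is nonempty: first exit), so there are attached a ∈ K and
attached a' ∈ X minus K. Any attached k ∈ K and attached k' ∈ X minus K are not adjacent, so they have the same neighbours outside of X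
(pcut_same); hence all attached vertices of X have the same neighbours outside. Let a b be an edge, a ∈ X, b ∉ X: IsSpl G X a b
(rect: p ∈ X, q ∉ X: p ~ q ↔ p ~ b ∧ a ~ q). Primality: X = {a} or Xᶜ = {b}; contradiction to Nontriv X. -/
theorem pcut_conn (hG : PrimeG G) (h : IsPCut G X) (hn : Nontriv X) : (G.induce X).Preconnected := by
  intro x x'
  by_contra hxx
  obtain ⟨⟨p₁, hp₁, p₂, hp₂, hpne⟩, q₁, hq₁, q₂, hq₂, hqne⟩ := hn
  -- exits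
  have exit : ∀ K : Set V, K ⊆ X → K.Nonempty → (∀ k ∈ K, ∀ v ∈ X, G.Adj k v → v ∈ K) →
      ∃ a ∈ K, ∃ b, b ∉ X ∧ G.Adj a b := by
    intro K hKX hKn hKc
    obtain ⟨k, hk⟩ := hKn
    obtain ⟨w⟩ := hG.1.preconnected k q₁
    obtain ⟨d, -, hd1, hd2⟩ := w.exists_boundary_dart K hk (fun hh => hq₁ (hKX hh))
    exact ⟨d.fst, hd1, d.snd, fun hh => hd2 (hKc _ hd1 _ hh d.adj), d.adj⟩
  let K : Set V := {v | ∃ hv : v ∈ X, (G.induce X).Reachable x ⟨v, hv⟩}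
  have hKX : K ⊆ X := fun v hv => hv.1
  have hKc : ∀ k ∈ K, ∀ v ∈ X, G.Adj k v → v ∈ K := by
    rintro k ⟨hk, hr⟩ v hv hkv
    refine ⟨hv, hr.trans ?_⟩
    exact SimpleGraph.Adj.reachable (G := G.induce X) (u := ⟨k, hk⟩) (v := ⟨v, hv⟩) hkv
  have hKc' : ∀ k ∈ X \ K, ∀ v ∈ X, G.Adj k v → v ∈ X \ K := by
    rintro k ⟨hk, hk'⟩ v hv hkv
    exact ⟨hv, fun hh => hk' (hKc v hh k hk hkv.symm)⟩
  obtain ⟨a, haK, b, hb, hab⟩ := exit K hKX ⟨x.1, x.2, SimpleGraph.Reachable.refl _⟩ hKc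
  obtain ⟨a', haK', b', hb', hab'⟩ := exit (X \ K) sdiff_subset
    ⟨x'.1, x'.2, fun hh => hxx hh.2⟩ hKc'
  have haX : a ∈ X := hKX haK
  have haX' : a' ∈ X := haK'.1
  have hna : ¬ G.Adj a a' := fun hh => haK'.2 (hKc a haK a' haX' hh)
  -- all attached vertices have the same neighbours outside
  have same : ∀ p ∈ X, ∀ z, z ∉ X → G.Adj p z → ∀ y, y ∉ X → (G.Adj p y ↔ G.Adj a y) := by
    intro p hp z hz hpz y hy
    by_cases hpK : p ∈ K
    · have h1 : ¬ G.Adj p a' := fun hh => haK'.2 (hKc p hpK a' haX' hh)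
      rw [pcut_same h hp haX' hz hb' hpz hab' h1 hy, pcut_same h haX haX' hb hb' hab hab' hna hy]
    · have h1 : ¬ G.Adj a p := fun hh => hpK (hKc a haK p hp hh)
      exact (pcut_same h haX hp hb hz hab hpz h1 hy).symm
  have hspl : IsSpl G X a b := by
    refine ⟨haX, hb, hab, ?_⟩
    intro p q hp hq
    constructor
    · intro hpq
      exact ⟨(same p hp q hq hpq b hb).2 hab, (same p hp q hq hpq q hq).1 hpq⟩
    · rintro ⟨hpb, haq⟩
      exact (same p hp b hb hpb q hq).2 haq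
  rcases hG.2 X a b hspl with h1 | h1
  · rw [h1] at hp₁ hp₂
    exact hpne (hp₁.trans hp₂.symm)
  · have e1 : q₁ ∈ Xᶜ := hq₁
    have e2 : q₂ ∈ Xᶜ := hq₂
    rw [h1] at e1 e2
    exact hqne (e1.trans e2.symm)

end Pool.Agent.SOP
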