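import Pool.Agent.SOC.Main
import Pool.Agent.SOS.Defs

/-! Project SOP (MP_66ba69_lc, P-cuts and orders), module Defs. -/

set_option autoImplicit false

open Set

namespace Pool.Agent.SOP

open Pool.Agent.SOC

/-- `X` separates `a` from `b` and `c` from `d` -/
def Spl {V : Type} (X : Set V) (a b c d : V) : Prop := ¬ (a ∈ X ↔ b ∈ X) ∧ ¬ (c ∈ X ↔ d ∈ X)

open Classical in
/-- the value of `Spl` -/
noncomputable def spv {V : Type} (X : Set V) (a b c d : V) : ZMod 2 := if Spl X a b c d then 1 else 0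

/-- `X` is an interval of the cyclic order `s` -/
def CI {V : Type} [DecidableEq V] (s : List V) (X : Set V) : Prop := IsSplit (ordFn s) X

/-- a cross-free family of P-cuts -/
structure CF {V : Type} (G : SimpleGraph V) (F : Set (Set V)) : Prop where
  pcut : ∀ {X}, X ∈ F → IsPCut G X
  cf : ∀ {X Y}, X ∈ F → Y ∈ F → ¬ Crossing X Y

/-- `F` is maximal: every P-cut which crosses no member of `F` belongs to `F` (up to the complement) or is trivial -/
def Full {V : Type} (G : SimpleGraph V) (F : Set (Set V)) : Prop :=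
  ∀ Z, IsPCut G Z → Nontriv Z → (∀ X ∈ F, ¬ Crossing X Z) → Z ∈ F ∨ Zᶜ ∈ F

/-- `x` and `z` are on the same side of the bipartition `X`, and in the same block of the cyclic order `s` -/
def Blk {V : Type} [DecidableEq V] (s : List V) (X : Set V) (x z : V) : Prop :=
  (x ∈ X ↔ z ∈ X) ∧ ∀ y y', (y ∈ X ↔ x ∉ X) → (y' ∈ X ↔ x ∉ X) → ¬ Cross s x z y y'

end Pool.Agent.SOP
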