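import Pool.Agent.SOP.Conn

/-! Project SOP, module Int (size 4): unions of blocks of a P-cut are P-cuts. -/

set_option autoImplicit false

open Set

namespace Pool.Agent.SOP

open Pool.Agent.SOC Pool.Agent.SOS

variable {V : Type} {G : SimpleGraph V} {X : Set V} [DecidableEq V] {s : List V}

private theorem in_sw1 {a b c d : V} (h : Cross s a b c d) : Cross s b a c d := by
  unfold Cross SOC.Btw at h ⊢
  intro h'
  apply h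
  constructor
  · intro k
    exact (h'.1 k.symm).symm
  · intro k
    exact (h'.2 k.symm).symm

private theorem in_sw2 {a b c d : V} (h : Cross s a b c d) : Cross s a b d c := by
  intro h'
  exact h h'.symm

private theorem in_z {a b c d : V} (h : Cross s a b c d) (z : V) : Cross s a b z c ∨ Cross s a b z d := by
  by_contra hcon
  unfold Cross at h hcon
  tauto

private theorem in_ne {x y : V} (hx : x ∈ X) (hy : y ∉ X) : x ≠ y := by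
  rintro rfl
  exact hy hx

/-- PROOF: walk in G[X] from x to x'; the chord y y' separates its ends, so it crosses one of its edges: Cross s p q y y' ↔ p, q are on
different sides of y y' (Btw s y y' ·, cross_comm), first step where the side changes. -/
theorem cross_edge (hs : IsEnum s) (hc : (G.induce X).Preconnected) {x x' y y' : V} (hx : x ∈ X) (hx' : x' ∈ X) (hy : y ∉ X)
    (hy' : y' ∉ X) (h : Cross s x x' y y') : ∃ p ∈ X, ∃ q ∈ X, G.Adj p q ∧ Cross s p q y y' := by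
  by_contra hcon
  push Not at hcon
  rw [cross_comm hs (in_ne hx hy) (in_ne hx hy') (in_ne hx' hy) (in_ne hx' hy')] at h
  apply h
  have key : ∀ u v : X, (G.induce X).Reachable u v → (SOC.Btw s y y' u.1 ↔ SOC.Btw s y y' v.1) := by
    intro u v huv
    obtain ⟨w⟩ := huv
    induction w with
    | nil => exact Iff.rfl
    | cons hadj p ih =>
      rename_i u v w
      refine Iff.trans ?_ ih
      have h1 : ¬ Cross s u.1 v.1 y y' := hcon u.1 u.2 v.1 v.2 hadj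
      rw [cross_comm hs (in_ne u.2 hy) (in_ne u.2 hy') (in_ne v.2 hy) (in_ne v.2 hy')] at h1
      unfold Cross at h1
      exact not_not.mp h1
  exact key ⟨x, hx⟩ ⟨x', hx'⟩ (hc _ _)

/-- crossing edges. PROOF: not rigid. -/
theorem cross_nr (hw : IsWO G s) {a b c d : V} (h1 : G.Adj a b) (h2 : G.Adj c d) (h3 : a ≠ c) (h4 : a ≠ d) (h5 : b ≠ c)
    (h6 : b ≠ d) (h : Cross s a b c d) : (G.Adj a c ∧ G.Adj b d) ∨ (G.Adj a d ∧ G.Adj b c) := by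
  by_contra hcon
  rw [not_or] at hcon
  exact hw a b c d ⟨h1, h2, h3, h4, h5, h6, hcon.1, hcon.2⟩ h

/-- the case y ~ x₁ of int1, with x₁ ~ y₁, x₂ ~ y₂ -/
private theorem in_a (hw : IsWO G s) (hX : IsPCut G X) {x₁ x₂ y₁ y₂ x' y : V} (h1 : x₁ ∈ X)
    (h2 : x₂ ∈ X) (h3 : y₁ ∉ X) (h4 : y₂ ∉ X) (h5 : x' ∈ X) (h6 : y ∉ X) (e1 : G.Adj x₁ x₂)
    (e3 : G.Adj x' y) (hc : Cross s x₁ x₂ y₁ y₂) (hr : Rigid G x₁ x₂ x' y) (a1 : G.Adj x₁ y₁) (a2 : G.Adj x₂ y₂)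
    (a3 : G.Adj x₁ y) : False := by
  have n2 : ¬ G.Adj x₂ x' := fun h => hr.n2 ⟨a3, h⟩
  have s2 : ∀ w, w ∉ X → (G.Adj x₂ w ↔ G.Adj x' w) := fun w hw' => pcut_same hX h2 h5 h4 h6 a2 e3 n2 hw'
  have a4 : G.Adj x₂ y := (s2 y h6).2 e3
  have n1 : ¬ G.Adj x₁ x' := fun h => hr.n1 ⟨h, a4⟩
  have s1 : ∀ w, w ∉ X → (G.Adj x₁ w ↔ G.Adj x' w) := fun w hw' => pcut_same hX h1 h5 h3 h6 a1 e3 n1 hw'
  have a5 : G.Adj x' y₁ := (s1 y₁ h3).1 a1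
  have a6 : G.Adj x' y₂ := (s2 y₂ h4).1 a2
  rcases in_z hc x' with h | h
  · rcases cross_nr hw e1 a5 hr.ac (in_ne h1 h3) hr.bc (in_ne h2 h3) h with k | k
    · exact n1 k.1
    · exact n2 k.2
  · rcases cross_nr hw e1 a6 hr.ac (in_ne h1 h4) hr.bc (in_ne h2 h4) h with k | k
    · exact n1 k.1
    · exact n2 k.2

/-- int1 with x₁ ~ y₁, x₂ ~ y₂ -/
private theorem in_b (hw : IsWO G s) (hX : IsPCut G X) {x₁ x₂ y₁ y₂ x' y : V} (h1 : x₁ ∈ X)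
    (h2 : x₂ ∈ X) (h3 : y₁ ∉ X) (h4 : y₂ ∉ X) (h5 : x' ∈ X) (h6 : y ∉ X) (e1 : G.Adj x₁ x₂)
    (e3 : G.Adj x' y) (hc : Cross s x₁ x₂ y₁ y₂) (hr : Rigid G x₁ x₂ x' y) (a1 : G.Adj x₁ y₁) (a2 : G.Adj x₂ y₂) :
    False := by
  by_cases b1 : G.Adj x₁ y
  · exact in_a hw hX h1 h2 h3 h4 h5 h6 e1 e3 hc hr a1 a2 b1
  · by_cases b2 : G.Adj x₂ y
    · exact in_a hw hX h2 h1 h4 h3 h5 h6 e1.symm e3 (in_sw2 (in_sw1 hc)) hr.swap a2 a1 b2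
    · have c1 := pcut_cls hX h5 h1 h6 h3 e3 a1 b1
      have c2 := pcut_cls hX h5 h2 h6 h4 e3 a2 b2
      rcases in_z hc y with h | h
      · rcases cross_nr hw e1 c1.2 (in_ne h1 h6) (in_ne h1 h3) (in_ne h2 h6) (in_ne h2 h3) h with k | k
        · exact b1 k.1
        · exact b2 k.2
      · rcases cross_nr hw e1 c2.2 (in_ne h1 h6) (in_ne h1 h4) (in_ne h2 h6) (in_ne h2 h4) h with k | k
        · exact b1 k.1
        · exact b2 k.2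

/-- (*) PROOF. Crossing: WLOG x₁ ~ y₁, x₂ ~ y₂. Case y ~ x₁: if x₂ ~ x' we are done (x₁ ~ y, x₂ ~ x'). Otherwise x₂, x' are attached, not
adjacent: same neighbours outside (pcut_same): y ~ x₂. If x₁ ~ x' done (x₁ ~ x', x₂ ~ y). Otherwise x₁, x' have the same neighbours
outside as well, so x' ~ y₁ and x' ~ y₂. y₁, y₂ are on different sides of x₁x₂: one of the edges x'y₁, x'y₂ crosses x₁x₂, so (cross_nr) x' ~ x₁
or x' ~ x₂: contradiction. Case y ~ x₂: symmetric. Case y not adjacent to x₁, x₂: pcut_cls (edges x₁y₁, x'y, y ≁ x₁): y ~ y₁, and y ~ y₂; one of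
y y₁, y y₂ crosses x₁x₂, so y ~ x₁ or y ~ x₂: contradiction. -/
theorem int1 (hs : IsEnum s) (hw : IsWO G s) (hX : IsPCut G X) {x₁ x₂ y₁ y₂ x' y : V} (h1 : x₁ ∈ X) (h2 : x₂ ∈ X) (h3 : y₁ ∉ X)
    (h4 : y₂ ∉ X) (h5 : x' ∈ X) (h6 : y ∉ X) (e1 : G.Adj x₁ x₂) (e2 : G.Adj y₁ y₂) (e3 : G.Adj x' y)
    (hc : Cross s x₁ x₂ y₁ y₂) : ¬ Rigid G x₁ x₂ x' y := by
  intro hr
  rcases cross_nr hw e1 e2 (in_ne h1 h3) (in_ne h1 h4) (in_ne h2 h3) (in_ne h2 h4) hc with k | k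
  · exact in_b hw hX h1 h2 h3 h4 h5 h6 e1 e3 hc hr k.1 k.2
  · exact in_b hw hX h1 h2 h4 h3 h5 h6 e1 e3 (in_sw2 hc) hr k.1 k.2

/-- an attached vertex of X is adjacent to one of the ends of an edge of X which is crossed by an edge of the other side -/
private theorem in_c (hw : IsWO G s) (hX : IsPCut G X) {p q r y y' z : V} (hp : p ∈ X) (hq : q ∈ X) (hr : r ∈ X)
    (hy : y ∉ X) (hy' : y' ∉ X) (hz : z ∉ X) (e1 : G.Adj q r) (e2 : G.Adj y y') (hc : Cross s q r y y')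
    (hpz : G.Adj p z) (hpq : p ≠ q) (hpr : p ≠ r) (n1 : ¬ G.Adj p q) (n2 : ¬ G.Adj p r) : False := by
  have key : G.Adj p y ∧ G.Adj p y' := by
    rcases cross_nr hw e1 e2 (in_ne hq hy) (in_ne hq hy') (in_ne hr hy) (in_ne hr hy') hc with k | k
    · exact ⟨(pcut_same hX hp hq hz hy hpz k.1 n1 hy).2 k.1, (pcut_same hX hp hr hz hy' hpz k.2 n2 hy').2 k.2⟩
    · exact ⟨(pcut_same hX hp hr hz hy hpz k.2 n2 hy).2 k.2, (pcut_same hX hp hq hz hy' hpz k.1 n1 hy').2 k.1⟩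
  rcases in_z hc p with h | h
  · rcases cross_nr hw e1 key.1 hpq.symm (in_ne hq hy) hpr.symm (in_ne hr hy) h with k | k
    · exact n1 k.1.symm
    · exact n2 k.2.symm
  · rcases cross_nr hw e1 key.2 hpq.symm (in_ne hq hy') hpr.symm (in_ne hr hy') h with k | k
    · exact n1 k.1.symm
    · exact n2 k.2.symm

/-- (**) PROOF. All xᵢ are attached (cross_nr). Suppose rigid: (x₁ ≁ x₃ or x₂ ≁ x₄) and (x₁ ≁ x₄ or x₂ ≁ x₃). By symmetry (exchange the two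
edges or the ends of an edge) x₁ ≁ x₃ and x₁ ≁ x₄: x₁, x₃, x₄ have the same neighbours outside: x₁ ~ y₃, x₁ ~ y₄. y₃, y₄ are on different
sides of x₃x₄: x₁y₃ or x₁y₄ crosses x₃x₄, so x₁ ~ x₃ or x₁ ~ x₄: contradiction. -/
theorem int2 (hs : IsEnum s) (hw : IsWO G s) (hX : IsPCut G X) {x₁ x₂ x₃ x₄ y₁ y₂ y₃ y₄ : V} (h1 : x₁ ∈ X) (h2 : x₂ ∈ X)
    (h3 : x₃ ∈ X) (h4 : x₄ ∈ X) (g1 : y₁ ∉ X) (g2 : y₂ ∉ X) (g3 : y₃ ∉ X) (g4 : y₄ ∉ X) (e1 : G.Adj x₁ x₂) (e2 : G.Adj x₃ x₄)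
    (f1 : G.Adj y₁ y₂) (f2 : G.Adj y₃ y₄) (hc : Cross s x₁ x₂ y₁ y₂) (hc' : Cross s x₃ x₄ y₃ y₄) : ¬ Rigid G x₁ x₂ x₃ x₄ := by
  intro hr
  have t12 : (∃ z, z ∉ X ∧ G.Adj x₁ z) ∧ ∃ z, z ∉ X ∧ G.Adj x₂ z := by
    rcases cross_nr hw e1 f1 (in_ne h1 g1) (in_ne h1 g2) (in_ne h2 g1) (in_ne h2 g2) hc with k | k
    · exact ⟨⟨_, g1, k.1⟩, ⟨_, g2, k.2⟩⟩
    · exact ⟨⟨_, g2, k.1⟩, ⟨_, g1, k.2⟩⟩
  have t34 : (∃ z, z ∉ X ∧ G.Adj x₃ z) ∧ ∃ z, z ∉ X ∧ G.Adj x₄ z := by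
    rcases cross_nr hw e2 f2 (in_ne h3 g3) (in_ne h3 g4) (in_ne h4 g3) (in_ne h4 g4) hc' with k | k
    · exact ⟨⟨_, g3, k.1⟩, ⟨_, g4, k.2⟩⟩
    · exact ⟨⟨_, g4, k.1⟩, ⟨_, g3, k.2⟩⟩
  obtain ⟨⟨z₁, hz1, b1⟩, ⟨z₂, hz2, b2⟩⟩ := t12
  obtain ⟨⟨z₃, hz3, b3⟩, ⟨z₄, hz4, b4⟩⟩ := t34
  have m1 : ¬ G.Adj x₁ x₃ ∨ ¬ G.Adj x₂ x₄ := not_and_or.mp hr.n1
  have m2 : ¬ G.Adj x₁ x₄ ∨ ¬ G.Adj x₂ x₃ := not_and_or.mp hr.n2
  rcases m1 with m1 | m1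
  · rcases m2 with m2 | m2
    · exact in_c hw hX h1 h3 h4 g3 g4 hz1 e2 f2 hc' b1 hr.ac hr.ad m1 m2
    · exact in_c hw hX h3 h1 h2 g1 g2 hz3 e1 f1 hc b3 hr.ac.symm hr.bc.symm (fun h => m1 h.symm) (fun h => m2 h.symm)
  · rcases m2 with m2 | m2
    · exact in_c hw hX h4 h1 h2 g1 g2 hz4 e1 f1 hc b4 hr.ad.symm hr.bd.symm (fun h => m2 h.symm) (fun h => m1 h.symm)
    · exact in_c hw hX h2 h3 h4 g3 g4 hz2 e2 f2 hc' b2 hr.bc hr.bd m2 m1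

/-- the claim of int3 -/
private theorem in_d (hw : IsWO G s) (hX : IsPCut G X) {x x₃ x₄ y₁ y₂ y : V} (h1 : x ∈ X)
    (h3 : x₃ ∈ X) (h4 : x₄ ∈ X) (g1 : y₁ ∉ X) (g2 : y₂ ∉ X) (g : y ∉ X) (e2 : G.Adj x₃ x₄)
    (f1 : G.Adj y₁ y₂) (hc' : Cross s y₁ y₂ x₃ x₄) (ha : G.Adj x y) : G.Adj x y₁ ∨ G.Adj x y₂ := by
  by_contra hcon
  rw [not_or] at hcon
  obtain ⟨n1, n2⟩ := hcon
  have key : (G.Adj x₃ x ∧ G.Adj x₄ x) := by
    rcases cross_nr hw f1 e2 (in_ne h3 g1).symm (in_ne h4 g1).symm (in_ne h3 g2).symm (in_ne h4 g2).symm hc' with k | k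
    · exact ⟨(pcut_cls hX h3 h1 g1 g k.1.symm ha n1).1, (pcut_cls hX h4 h1 g2 g k.2.symm ha n2).1⟩
    · exact ⟨(pcut_cls hX h3 h1 g2 g k.2.symm ha n2).1, (pcut_cls hX h4 h1 g1 g k.1.symm ha n1).1⟩
  rcases in_z hc' x with h | h
  · rcases cross_nr hw f1 key.1.symm (in_ne h1 g1).symm (in_ne h3 g1).symm (in_ne h1 g2).symm (in_ne h3 g2).symm h with k | k
    · exact n1 k.1.symm
    · exact n2 k.2.symm
  · rcases cross_nr hw f1 key.2.symm (in_ne h1 g1).symm (in_ne h4 g1).symm (in_ne h1 g2).symm (in_ne h4 g2).symm h with k | k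
    · exact n1 k.1.symm
    · exact n2 k.2.symm

/-- (***) PROOF. Claim: x₁ ~ y₁ or x₁ ~ y₂ (same for x₂; for y₁, y₂ exchange the roles, pcut_compl). x₃ ~ y₁, x₄ ~ y₂ or vice versa. If x₁ ∈ {x₃, x₄} clear.
Suppose not. x₁ is attached: x₁ ~ y, y ≠ y₁, y₂. pcut_cls (edges x₃y₁, x₁y, y₁ ≁ x₁): x₁ ~ x₃; also x₁ ~ x₄. x₃, x₄ are on different sides of y₁y₂:
x₁x₃ or x₁x₄ crosses y₁y₂: x₁ ~ y₁ or x₁ ~ y₂. Contradiction. With the four claims: a perfect matching between {x₁, x₂} and {y₁, y₂}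
(if x₁ ≁ y₁ then x₁ ~ y₂ and y₁ ~ x₂; if x₁ ~ y₁: if x₂ ~ y₂ done, else x₂ ~ y₁ and y₂ ~ x₁). -/
theorem int3 (hs : IsEnum s) (hw : IsWO G s) (hX : IsPCut G X) {x₁ x₂ x₃ x₄ y₁ y₂ y₃ y₄ : V} (h1 : x₁ ∈ X) (h2 : x₂ ∈ X)
    (h3 : x₃ ∈ X) (h4 : x₄ ∈ X) (g1 : y₁ ∉ X) (g2 : y₂ ∉ X) (g3 : y₃ ∉ X) (g4 : y₄ ∉ X) (e1 : G.Adj x₁ x₂) (e2 : G.Adj x₃ x₄)
    (f1 : G.Adj y₁ y₂) (f2 : G.Adj y₃ y₄) (hc : Cross s x₁ x₂ y₃ y₄) (hc' : Cross s y₁ y₂ x₃ x₄) : ¬ Rigid G x₁ x₂ y₁ y₂ := by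
  intro hr
  have hXc := pcut_compl hX
  have i1 : x₁ ∉ Xᶜ := not_not.mpr h1
  have i2 : x₂ ∉ Xᶜ := not_not.mpr h2
  have i3 : x₃ ∉ Xᶜ := not_not.mpr h3
  have i4 : x₄ ∉ Xᶜ := not_not.mpr h4
  have t12 : (∃ z, z ∉ X ∧ G.Adj x₁ z) ∧ ∃ z, z ∉ X ∧ G.Adj x₂ z := by
    rcases cross_nr hw e1 f2 (in_ne h1 g3) (in_ne h1 g4) (in_ne h2 g3) (in_ne h2 g4) hc with k | k
    · exact ⟨⟨_, g3, k.1⟩, ⟨_, g4, k.2⟩⟩
    · exact ⟨⟨_, g4, k.1⟩, ⟨_, g3, k.2⟩⟩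
  have t34 : (∃ z, z ∉ Xᶜ ∧ G.Adj y₁ z) ∧ ∃ z, z ∉ Xᶜ ∧ G.Adj y₂ z := by
    rcases cross_nr hw f1 e2 (in_ne h3 g1).symm (in_ne h4 g1).symm (in_ne h3 g2).symm (in_ne h4 g2).symm hc' with k | k
    · exact ⟨⟨_, i3, k.1⟩, ⟨_, i4, k.2⟩⟩
    · exact ⟨⟨_, i4, k.1⟩, ⟨_, i3, k.2⟩⟩
  obtain ⟨⟨z₁, hz1, b1⟩, ⟨z₂, hz2, b2⟩⟩ := t12
  obtain ⟨⟨z₃, hz3, b3⟩, ⟨z₄, hz4, b4⟩⟩ := t34
  have c1 := in_d hw hX h1 h3 h4 g1 g2 hz1 e2 f1 hc' b1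
  have c2 := in_d hw hX h2 h3 h4 g1 g2 hz2 e2 f1 hc' b2
  have c3 := in_d (X := Xᶜ) hw hXc g1 g3 g4 i1 i2 hz3 f2 e1 hc b3
  have c4 := in_d (X := Xᶜ) hw hXc g2 g3 g4 i1 i2 hz4 f2 e1 hc b4
  have n1 := hr.n1
  have n2 := hr.n2
  rw [G.adj_comm y₁ x₁, G.adj_comm y₁ x₂] at c3
  rw [G.adj_comm y₂ x₁, G.adj_comm y₂ x₂] at c4
  clear hr b1 b2 b3 b4 hXc
  tauto

/-- an edge of X which is crossed by an edge of the other side -/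
private def In (G : SimpleGraph V) (s : List V) (X : Set V) (a b : V) : Prop :=
  a ∈ X ∧ b ∈ X ∧ ∃ p, p ∉ X ∧ ∃ q, q ∉ X ∧ G.Adj p q ∧ Cross s a b p q

private theorem in_ic (hs : IsEnum s) (hw : IsWO G s) (hX : IsPCut G X) {a b c d : V} (h : In G s X a b) (hc : c ∈ X)
    (hd : d ∉ X) : ¬ Rigid G a b c d := by
  intro hr
  obtain ⟨ha, hb, p, hp, q, hq, hpq, hcr⟩ := h
  exact int1 hs hw hX ha hb hp hq hc hd hr.ab hpq hr.cd hcr hr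

private theorem in_ii (hs : IsEnum s) (hw : IsWO G s) (hX : IsPCut G X) {a b c d : V} (h : In G s X a b)
    (h' : In G s X c d) : ¬ Rigid G a b c d := by
  intro hr
  obtain ⟨ha, hb, p, hp, q, hq, hpq, hcr⟩ := h
  obtain ⟨hc, hd, p', hp', q', hq', hpq', hcr'⟩ := h'
  exact int2 hs hw hX ha hb hc hd hp hq hp' hq' hr.ab hr.cd hpq hpq' hcr hcr' hr

private theorem in_io (hs : IsEnum s) (hw : IsWO G s) (hX : IsPCut G X) {a b c d : V} (h : In G s X a b)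
    (h' : In G s Xᶜ c d) : ¬ Rigid G a b c d := by
  intro hr
  obtain ⟨ha, hb, p, hp, q, hq, hpq, hcr⟩ := h
  obtain ⟨hc, hd, p', hp', q', hq', hpq', hcr'⟩ := h'
  exact int3 hs hw hX ha hb (not_not.mp hp') (not_not.mp hq') hc hd hp hq hr.ab hpq' hr.cd hpq hcr hcr' hr

private theorem in_cl (hs : IsEnum s) (c1 : (G.induce X).Preconnected)
    (c2 : (G.induce Xᶜ).Preconnected) {U : Set V}
    (hU1 : ∀ x ∈ X, ∀ x' ∈ X, x ∈ U → x' ∉ U → ∃ y, y ∉ X ∧ ∃ y', y' ∉ X ∧ Cross s x x' y y')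
    (hU2 : ∀ y, y ∉ X → ∀ y', y' ∉ X → y ∈ U → y' ∉ U → ∃ x ∈ X, ∃ x' ∈ X, Cross s y y' x x') {a b : V}
    (ha : a ∈ U) (hb : b ∉ U) :
    (a ∈ X ∧ b ∉ X) ∨ (a ∉ X ∧ b ∈ X) ∨ In G s X a b ∨ In G s Xᶜ a b := by
  by_cases h1 : a ∈ X
  · by_cases h2 : b ∈ X
    · obtain ⟨y, hy, y', hy', hcr⟩ := hU1 a h1 b h2 ha hb
      rw [cross_comm hs (in_ne h1 hy) (in_ne h1 hy') (in_ne h2 hy) (in_ne h2 hy')] at hcr
      obtain ⟨p, hp, q, hq, hpq, hcr'⟩ := cross_edge (X := Xᶜ) hs c2 hy hy' (not_not.mpr h1) (not_not.mpr h2) hcr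
      have hp' : p ∉ X := hp
      have hq' : q ∉ X := hq
      rw [cross_comm hs (in_ne h1 hp').symm (in_ne h2 hp').symm (in_ne h1 hq').symm (in_ne h2 hq').symm] at hcr'
      exact Or.inr (Or.inr (Or.inl ⟨h1, h2, p, hp', q, hq', hpq, hcr'⟩))
    · exact Or.inl ⟨h1, h2⟩
  · by_cases h2 : b ∈ X
    · exact Or.inr (Or.inl ⟨h1, h2⟩)
    · obtain ⟨y, hy, y', hy', hcr⟩ := hU2 a h1 b h2 ha hb
      rw [cross_comm hs (in_ne hy h1).symm (in_ne hy' h1).symm (in_ne hy h2).symm (in_ne hy' h2).symm] at hcr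
      obtain ⟨p, hp, q, hq, hpq, hcr'⟩ := cross_edge (X := X) hs c1 hy hy' h1 h2 hcr
      rw [cross_comm hs (in_ne hp h1) (in_ne hp h2) (in_ne hq h1) (in_ne hq h2)] at hcr'
      exact Or.inr (Or.inr (Or.inr ⟨h1, h2, p, not_not.mpr hp, q, not_not.mpr hq, hpq, hcr'⟩))

/-- (INT) PROOF. Two edges leaving U: each is a cross edge (between X and Xᶜ), or joins two vertices of X (then it is crossed by an
edge of Xᶜ: hU1, cross_edge for Xᶜ, cross_comm), or joins two vertices of Xᶜ (crossed by an edge of X). cross/cross: hX; otherwise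
int1, int2, int3 (for X or for Xᶜ, pcut_compl; Rigid.symm, Rigid.swap). -/
theorem int_pcut (hs : IsEnum s) (hw : IsWO G s) (hX : IsPCut G X) (c1 : (G.induce X).Preconnected)
    (c2 : (G.induce Xᶜ).Preconnected) {U : Set V}
    (hU1 : ∀ x ∈ X, ∀ x' ∈ X, x ∈ U → x' ∉ U → ∃ y, y ∉ X ∧ ∃ y', y' ∉ X ∧ Cross s x x' y y')
    (hU2 : ∀ y, y ∉ X → ∀ y', y' ∉ X → y ∈ U → y' ∉ U → ∃ x ∈ X, ∃ x' ∈ X, Cross s y y' x x') : IsPCut G U := by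
  intro a ha c hc b hb d hd hr
  have hXc := pcut_compl hX
  have nn : ∀ {t : V}, t ∈ X → t ∉ Xᶜ := fun h => not_not.mpr h
  rcases in_cl hs c1 c2 hU1 hU2 ha hb with k | k | k | k
  · rcases in_cl hs c1 c2 hU1 hU2 hc hd with l | l | l | l
    · exact hX a k.1 c l.1 b k.2 d l.2 hr
    · exact hX a k.1 d l.2 b k.2 c l.1 hr.swap'
    · exact in_ic hs hw hX l k.1 k.2 hr.symm
    · exact in_ic hs hw hXc l k.2 (nn k.1) hr.symm.swap'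
  · rcases in_cl hs c1 c2 hU1 hU2 hc hd with l | l | l | l
    · exact hX b k.2 c l.1 a k.1 d l.2 hr.swap
    · exact hX b k.2 d l.2 a k.1 c l.1 hr.swap.swap'
    · exact in_ic hs hw hX l k.2 k.1 hr.symm.swap'
    · exact in_ic hs hw hXc l k.1 (nn k.2) hr.symm
  · rcases in_cl hs c1 c2 hU1 hU2 hc hd with l | l | l | l
    · exact in_ic hs hw hX k l.1 l.2 hr
    · exact in_ic hs hw hX k l.2 l.1 hr.swap'
    · exact in_ii hs hw hX k l hr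
    · exact in_io hs hw hX k l hr
  · rcases in_cl hs c1 c2 hU1 hU2 hc hd with l | l | l | l
    · exact in_ic hs hw hXc k l.2 (nn l.1) hr.swap'
    · exact in_ic hs hw hXc k l.1 (nn l.2) hr
    · exact in_io hs hw hX l k hr.symm
    · exact in_ii hs hw hXc k l hr

end Pool.Agent.SOP
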