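import Pool.Agent.SOP.Int

/-! Project SOP, module Strong (size 3): blocks; strong P-cuts are intervals. -/

set_option autoImplicit false
set_option linter.unusedSectionVars false
set_option linter.unusedVariables false

open Set

namespace Pool.Agent.SOP

open Pool.Agent.SOC Pool.Agent.SOS

variable {V : Type} {G : SimpleGraph V} {X : Set V} [DecidableEq V] {s : List V}

theorem strong_btw_symm {a b c : V} : Btw s a b c ↔ Btw s b a c := Or.comm

theorem strong_cross_symm {a b c d : V} : Cross s a b c d ↔ Cross s b a c d := by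
  unfold Cross
  rw [strong_btw_symm (a := a) (b := b) (c := c), strong_btw_symm (a := a) (b := b) (c := d)]

/-- the sides of three chords -/
theorem strong_btw3 (hs : IsEnum s) {x z u y : V} (h1 : x ≠ y) (h2 : z ≠ y) (h3 : u ≠ y) :
    Btw s x u y ↔ ¬ (Btw s x z y ↔ Btw s z u y) := by
  have e1 := idx_ne hs h1
  have e2 := idx_ne hs h2
  have e3 := idx_ne hs h3
  unfold SOC.Btw
  generalize s.idxOf x = a at *
  generalize s.idxOf z = b at *
  generalize s.idxOf u = c at *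
  generalize s.idxOf y = d at *
  rcases lt_or_gt_of_ne e1 with k1 | k1 <;> rcases lt_or_gt_of_ne e2 with k2 | k2 <;>
    rcases lt_or_gt_of_ne e3 with k3 | k3 <;> omega

theorem blk_refl (hs : IsEnum s) (x : V) : Blk s X x x := by
  refine ⟨Iff.rfl, fun y y' _ _ h => h ?_⟩
  unfold SOC.Btw
  omega

theorem blk_symm (hs : IsEnum s) {x z : V} (h : Blk s X x z) : Blk s X z x := by
  refine ⟨h.1.symm, fun y y' h1 h2 hc => ?_⟩
  rw [← h.1] at h1 h2
  exact h.2 y y' h1 h2 (strong_cross_symm.1 hc)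

theorem strong_ne {x y : V} (h : y ∈ X ↔ x ∉ X) : x ≠ y := by
  rintro rfl
  by_cases hx : x ∈ X
  · exact h.1 hx hx
  · exact hx (h.2 hx)

/-- PROOF: Cross s x u y y' implies Cross s x z y y' or Cross s z u y y' (sides of the chord y y'; z ≠ y, y'). -/
theorem blk_trans (hs : IsEnum s) {x z u : V} (h : Blk s X x z) (h' : Blk s X z u) : Blk s X x u := by
  refine ⟨h.1.trans h'.1, fun y y' h1 h2 hc => hc ?_⟩
  have k1 : (y ∈ X ↔ z ∉ X) := by rw [← h.1]; exact h1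
  have k2 : (y' ∈ X ↔ z ∉ X) := by rw [← h.1]; exact h2
  have l1 : (y ∈ X ↔ u ∉ X) := by rw [← h'.1]; exact k1
  have l2 : (y' ∈ X ↔ u ∉ X) := by rw [← h'.1]; exact k2
  have e1 : Btw s x z y ↔ Btw s x z y' := not_not.1 (h.2 y y' h1 h2)
  have e2 : Btw s z u y ↔ Btw s z u y' := not_not.1 (h'.2 y y' k1 k2)
  rw [strong_btw3 hs (strong_ne h1) (strong_ne k1) (strong_ne l1),
    strong_btw3 hs (strong_ne h2) (strong_ne k2) (strong_ne l2), e1, e2]

/-- a union of blocks is a P-cut. PROOF: int_pcut; pcut_conn for X and Xᶜ. -/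
theorem pcut_blocks (hG : PrimeG G) (hs : IsEnum s) (hw : IsWO G s) (hX : IsPCut G X) (hn : Nontriv X) {U : Set V}
    (hU : ∀ x z, Blk s X x z → x ∈ U → z ∈ U) : IsPCut G U := by
  refine int_pcut hs hw hX (pcut_conn hG hX hn) (pcut_conn hG (pcut_compl hX) (nontriv_compl.2 hn)) ?_ ?_
  · intro x hx x' hx' hxU hxU'
    by_contra hcon
    push Not at hcon
    refine hxU' (hU x x' ⟨⟨fun _ => hx', fun _ => hx⟩, fun y y' h1 h2 => ?_⟩ hxU)
    exact hcon y (fun h => h1.1 h hx) y' (fun h => h2.1 h hx)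
  · intro y hy y' hy' hyU hyU'
    by_contra hcon
    push Not at hcon
    refine hyU' (hU y y' ⟨⟨fun h => absurd h hy, fun h => absurd h hy'⟩, fun x x' h1 h2 => ?_⟩ hyU)
    exact hcon x (h1.2 hy) x' (h2.2 hy)

/-- PROOF. Otherwise (not_cross_iff) Cross s x x' y y' with x, x' ∈ X, y, y' ∉ X (x ≠ x', y ≠ y', since sep = 0 if x = x'). X is nontrivial. U := {z | Blk s X x z ∨
Blk s X y z} is a P-cut (pcut_blocks), x, y ∈ U, x', y' ∉ U (Blk s X x x' contradicts the crossing): Crossing X U. -/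
theorem strong_ci (hG : PrimeG G) (hs : IsEnum s) (hw : IsWO G s) (hX : IsPCut G X)
    (hst : ∀ U, IsPCut G U → ¬ Crossing X U) : CI s X := by
  intro x hx x' hx' y hy y' hy'
  have ne : ∀ p q, p ∈ X → q ∉ X → p ≠ q := fun p q hp hq e => hq (e ▸ hp)
  by_contra hcon
  have h1 : sep (ordFn s) x x' y y' = 1 := (zmod2_cases _).resolve_left hcon
  have hc : Cross s x x' y y' :=
    (cross_iff_sep hs (ne x y hx hy) (ne x y' hx hy') (ne x' y hx' hy) (ne x' y' hx' hy')).2 h1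
  have hxx : x ≠ x' := by
    rintro rfl
    exact hcon (sep_self_left _ _ _ _)
  have hyy : y ≠ y' := by
    rintro rfl
    exact hcon (sep_self_right _ _ _ _)
  have hn : Nontriv X := ⟨⟨x, hx, x', hx', hxx⟩, ⟨y, hy, y', hy', hyy⟩⟩
  have hU := pcut_blocks hG hs hw hX hn (U := {z | Blk s X x z ∨ Blk s X y z}) (by
    intro p q hpq hp
    rcases hp with hp | hp
    · exact Or.inl (blk_trans hs hp hpq)
    · exact Or.inr (blk_trans hs hp hpq))
  refine hst _ hU ⟨⟨x, hx, Or.inl (blk_refl hs x)⟩, ⟨x', hx', ?_⟩, ⟨y, hy, Or.inr (blk_refl hs y)⟩, ⟨y', hy', ?_⟩⟩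
  · rintro (h | h)
    · exact h.2 y y' ⟨fun h => absurd h hy, fun h => absurd hx h⟩ ⟨fun h => absurd h hy', fun h => absurd hx h⟩ hc
    · exact hy (h.1.2 hx')
  · rintro (h | h)
    · exact hy' (h.1.1 hx)
    · refine h.2 x x' ⟨fun _ => hy, fun _ => hx⟩ ⟨fun _ => hy, fun _ => hx'⟩ ?_
      exact (cross_comm hs (ne x y hx hy) (ne x y' hx hy') (ne x' y hx' hy) (ne x' y' hx' hy')).1 hc

/-- five points: the chord `y y'` separates `p` and `z` but not `p` and `q` -/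
theorem strong_five {p q z y y' : ℕ} (h1 : p ≠ y) (h2 : p ≠ y') (h3 : z ≠ y) (h4 : z ≠ y') (h5 : q ≠ y) (h6 : q ≠ y')
    (h7 : p ≠ z) (h8 : q ≠ z)
    (hc : ¬ (((p < y ∧ y < z) ∨ (z < y ∧ y < p)) ↔ ((p < y' ∧ y' < z) ∨ (z < y' ∧ y' < p))))
    (hb : ((p < y ∧ y < q) ∨ (q < y ∧ y < p)) ↔ ((p < y' ∧ y' < q) ∨ (q < y' ∧ y' < p))) :
    ((p < y ∧ y < q) ∨ (q < y ∧ y < p)) ↔ ((p < z ∧ z < q) ∨ (q < z ∧ z < p)) := by
  rcases lt_or_gt_of_ne h7 with k7 | k7 <;> rcases lt_or_gt_of_ne h8 with k8 | k8 <;>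
    rcases lt_or_gt_of_ne h1 with k1 | k1 <;> rcases lt_or_gt_of_ne h3 with k3 | k3 <;>
    rcases lt_or_gt_of_ne h5 with k5 | k5 <;> omega

/-- beyond a block there is a point of the other side of the bipartition -/
theorem strong_beyond (hs : IsEnum s) {p q z : V} (h : Blk s X p q) (hz : ¬ Blk s X p z) :
    ∃ y, (y ∈ X ↔ p ∉ X) ∧ (Btw s p q y ↔ Btw s p q z) := by
  by_cases h1 : (z ∈ X ↔ p ∉ X)
  · exact ⟨z, h1, Iff.rfl⟩
  have h2 : (p ∈ X ↔ z ∈ X) := by
    by_cases hp : p ∈ X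
    · by_cases hz' : z ∈ X
      · exact ⟨fun _ => hz', fun _ => hp⟩
      · exact absurd ⟨fun h => absurd h hz', fun h => absurd hp h⟩ h1
    · by_cases hz' : z ∈ X
      · exact absurd ⟨fun _ => hp, fun _ => hz'⟩ h1
      · exact ⟨fun h => absurd h hp, fun h => absurd h hz'⟩
  have h3 : ∃ y y', (y ∈ X ↔ p ∉ X) ∧ (y' ∈ X ↔ p ∉ X) ∧ Cross s p z y y' := by
    by_contra hcon
    push Not at hcon
    exact hz ⟨h2, hcon⟩
  obtain ⟨y, y', h4, h5, h6⟩ := h3
  refine ⟨y, h4, ?_⟩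
  have k1 : (y ∈ X ↔ q ∉ X) := by rw [← h.1]; exact h4
  have k2 : (y' ∈ X ↔ q ∉ X) := by rw [← h.1]; exact h5
  have l1 : (y ∈ X ↔ z ∉ X) := by rw [← h2]; exact h4
  have l2 : (y' ∈ X ↔ z ∉ X) := by rw [← h2]; exact h5
  have e1 : Btw s p q y ↔ Btw s p q y' := not_not.1 (h.2 y y' h4 h5)
  have hpz : p ≠ z := by
    rintro rfl
    exact hz (blk_refl hs p)
  have hqz : q ≠ z := by
    rintro rfl
    exact hz h
  exact strong_five (idx_ne hs (strong_ne h4)) (idx_ne hs (strong_ne h5)) (idx_ne hs (strong_ne l1))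
    (idx_ne hs (strong_ne l2)) (idx_ne hs (strong_ne k1)) (idx_ne hs (strong_ne k2)) (idx_ne hs hpz)
    (idx_ne hs hqz) h6 e1

/-- blocks are intervals -/
theorem strong_blk_int (hs : IsEnum s) {a p z z' : V} (h : Blk s X a p) (hz : ¬ Blk s X a z) (hz' : ¬ Blk s X a z') :
    sep (ordFn s) a p z z' = 0 := by
  obtain ⟨y, h1, h2⟩ := strong_beyond hs h hz
  obtain ⟨y', h3, h4⟩ := strong_beyond hs h hz'
  have e1 : Btw s a p y ↔ Btw s a p y' := not_not.1 (h.2 y y' h1 h3)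
  have n1 : a ≠ z := by rintro rfl; exact hz (blk_refl hs a)
  have n2 : a ≠ z' := by rintro rfl; exact hz' (blk_refl hs a)
  have n3 : p ≠ z := by rintro rfl; exact hz h
  have n4 : p ≠ z' := by rintro rfl; exact hz' h
  rw [← not_cross_iff hs n1 n2 n3 n4]
  intro hc
  exact hc (h2.symm.trans (e1.trans h4))

/-- two neighbours in the list on different sides -/
theorem strong_adj {Z : Set V} (h1 : ∃ a, a ∈ Z) (h2 : ∃ c, c ∉ Z) :
    ∃ a c, a ∈ Z ∧ c ∉ Z ∧ ∀ z, ¬ Btw s a c z := by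
  classical
  have hex : ∃ n, ∃ a c, a ∈ Z ∧ c ∉ Z ∧ (s.idxOf a - s.idxOf c) + (s.idxOf c - s.idxOf a) = n := by
    obtain ⟨a, ha⟩ := h1
    obtain ⟨c, hc⟩ := h2
    exact ⟨_, a, c, ha, hc, rfl⟩
  obtain ⟨a, c, ha, hc, hn⟩ := Nat.find_spec hex
  refine ⟨a, c, ha, hc, fun z hz => ?_⟩
  unfold SOC.Btw at hz
  by_cases hzZ : z ∈ Z
  · have := Nat.find_min' hex ⟨z, c, hzZ, hc, rfl⟩
    omega
  · have := Nat.find_min' hex ⟨a, z, ha, hzZ, rfl⟩
    omega

/-- a set on one side of `Z` which is an interval is contained in a union of blocks or disjoint from it -/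
theorem strong_one_block (hs : IsEnum s) {Z T W : Set V} (hT : CI s T) (hTZ : (∀ t ∈ T, t ∈ Z) ∨ ∀ t ∈ T, t ∉ Z)
    (hW : ∀ p q, Blk s Z p q → p ∈ W → q ∈ W) {p q : V} (hp : p ∈ T) (hq : q ∈ T) (hpW : p ∈ W) : q ∈ W := by
  refine hW p q ⟨?_, ?_⟩ hpW
  · rcases hTZ with h | h
    · exact ⟨fun _ => h q hq, fun _ => h p hp⟩
    · exact ⟨fun k => absurd k (h p hp), fun k => absurd k (h q hq)⟩
  · intro y y' h1 h2
    have hy : y ∉ T := by
      intro hy
      rcases hTZ with h | h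
      · exact h1.1 (h y hy) (h p hp)
      · exact h y hy (h1.2 (h p hp))
    have hy' : y' ∉ T := by
      intro hy
      rcases hTZ with h | h
      · exact h2.1 (h y' hy) (h p hp)
      · exact h y' hy (h2.2 (h p hp))
    have ne : ∀ u v, u ∈ T → v ∉ T → u ≠ v := fun u v hu hv e => hv (e ▸ hu)
    rw [not_cross_iff hs (ne p y hp hy) (ne p y' hp hy') (ne q y hq hy) (ne q y' hq hy')]
    exact hT p hp q hq y hy y' hy'

/-- in a maximal cross-free family: enough to test intervals. `hI`: all interval P-cuts which cross no member of F belong to F. PROOF of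
Full: let Z be a nontrivial P-cut crossing no member of F, Z, Zᶜ ∉ F. If Z is an interval: hI. Otherwise there is a crossing x x' | y y', x, x' ∈ Z, y, y' ∉ Z.
Every member Y of F or its complement is contained in one block of Z: Y crosses not Z, so Y ⊆ Z, Y ⊆ Zᶜ, Yᶜ ⊆ Z or Yᶜ ⊆ Zᶜ (an empty corner);
and Y is an interval, so the elements of Y (Yᶜ) are in one block [if p, q ∈ Y ⊆ Z were in different blocks: z, z' ∉ Z, so z, z' ∉ Y with Cross s p q z z'; Y is
an interval]. Choose a and c in adjacent blocks: a ∈ Z, c ∉ Z such that W := block of a ∪ block of c is an interval (e.g. a minimal chord: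
take consecutive elements of s: since Z is nontrivial there are cyclically consecutive a ∈ Z, c ∉ Z; then W is an interval: if p, q ∈ W, z, z' ∉ W,
Cross s p q z z': p, q in the same block impossible (blocks are intervals); p ~ a, q ~ c: then the chord a c crosses z z' too, but a, c are
cyclically consecutive). W is a P-cut (pcut_blocks), it is crossed by Z (Z not an interval: there are further blocks on both sides), W crosses
no member of F (members are inside one block or contain the complement of one block). By hI W ∈ F or Wᶜ ∈ F, but Z crosses no member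
of F. Contradiction. -/
theorem full_of_intervals (hG : PrimeG G) (hs : IsEnum s) (hw : IsWO G s) {F : Set (Set V)} (hF : CF G F)
    (hFs : ∀ Y ∈ F, CI s Y)
    (hI : ∀ Z, IsPCut G Z → Nontriv Z → CI s Z → (∀ Y ∈ F, ¬ Crossing Y Z) → Z ∈ F ∨ Zᶜ ∈ F) : Full G F := by
  intro Z hZ hn hcr
  by_cases hci : CI s Z
  · exact hI Z hZ hn hci hcr
  exfalso
  have hex : ∃ x ∈ Z, ∃ x' ∈ Z, ∃ y, y ∉ Z ∧ ∃ y', y' ∉ Z ∧ Cross s x x' y y' := by
    by_contra hcon
    push Not at hcon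
    apply hci
    intro x hx x' hx' y hy y' hy'
    have ne : ∀ p q, p ∈ Z → q ∉ Z → p ≠ q := fun p q hp hq e => hq (e ▸ hp)
    rw [← not_cross_iff hs (ne x y hx hy) (ne x y' hx hy') (ne x' y hx' hy) (ne x' y' hx' hy')]
    exact hcon x hx x' hx' y hy y' hy'
  obtain ⟨x, hx, x', hx', y, hy, y', hy', hc⟩ := hex
  obtain ⟨a, c, ha, hc', hac⟩ := strong_adj (s := s) (Z := Z) ⟨x, hx⟩ ⟨y, hy⟩
  obtain ⟨W, hWdef⟩ : ∃ W : Set V, W = {z | Blk s Z a z ∨ Blk s Z c z} := ⟨_, rfl⟩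
  have hWm : ∀ z, z ∈ W ↔ Blk s Z a z ∨ Blk s Z c z := by
    intro z
    rw [hWdef]
    rfl
  have hWc : ∀ p q, Blk s Z p q → p ∈ W → q ∈ W := by
    intro p q hpq hp
    rw [hWm] at hp ⊢
    exact hp.imp (fun h => blk_trans hs h hpq) (fun h => blk_trans hs h hpq)
  have hWp : IsPCut G W := pcut_blocks hG hs hw hZ hn hWc
  have haW : a ∈ W := (hWm a).2 (Or.inl (blk_refl hs a))
  have hcW : c ∈ W := (hWm c).2 (Or.inr (blk_refl hs c))
  have ne : ∀ p q, p ∈ Z → q ∉ Z → p ≠ q := fun p q hp hq e => hq (e ▸ hp)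
  have hxW : ∃ x₁ ∈ Z, x₁ ∉ W := by
    by_contra hcon
    push Not at hcon
    have k : ∀ z ∈ Z, z ∈ W → Blk s Z a z := by
      intro z hz hzW
      refine ((hWm z).1 hzW).resolve_right (fun h => hc' (h.1.2 hz))
    have k1 := blk_trans hs (blk_symm hs (k x hx (hcon x hx))) (k x' hx' (hcon x' hx'))
    exact k1.2 y y' ⟨fun h => absurd h hy, fun h => absurd hx h⟩ ⟨fun h => absurd h hy', fun h => absurd hx h⟩ hc
  have hyW : ∃ y₁, y₁ ∉ Z ∧ y₁ ∉ W := by
    by_contra hcon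
    push Not at hcon
    have k : ∀ z, z ∉ Z → z ∈ W → Blk s Z c z := by
      intro z hz hzW
      refine ((hWm z).1 hzW).resolve_left (fun h => hz (h.1.1 ha))
    have k1 := blk_trans hs (blk_symm hs (k y hy (hcon y hy))) (k y' hy' (hcon y' hy'))
    refine k1.2 x x' ⟨fun _ => hy, fun _ => hx⟩ ⟨fun _ => hy, fun _ => hx'⟩ ?_
    exact (cross_comm hs (ne x y hx hy) (ne x y' hx hy') (ne x' y hx' hy) (ne x' y' hx' hy')).1 hc
  obtain ⟨x₁, hx₁, hx₁W⟩ := hxW
  obtain ⟨y₁, hy₁, hy₁W⟩ := hyW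
  have hWn : Nontriv W := ⟨⟨a, haW, c, hcW, ne a c ha hc'⟩, ⟨x₁, hx₁W, y₁, hy₁W, ne x₁ y₁ hx₁ hy₁⟩⟩
  have hWi : CI s W := by
    have hrep : ∀ p ∈ W, ∃ b, (b = a ∨ b = c) ∧ Blk s Z b p := by
      intro p hp
      rcases (hWm p).1 hp with h | h
      · exact ⟨a, Or.inl rfl, h⟩
      · exact ⟨c, Or.inr rfl, h⟩
    intro p hp q hq z hz z' hz'
    obtain ⟨b, hb, hbp⟩ := hrep p hp
    obtain ⟨b', hb', hbq⟩ := hrep q hq
    have nb : ∀ b, (b = a ∨ b = c) → ∀ z, z ∉ W → ¬ Blk s Z b z := by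
      rintro b (rfl | rfl) z hz h
      · exact hz ((hWm z).2 (Or.inl h))
      · exact hz ((hWm z).2 (Or.inr h))
    have e1 := strong_blk_int hs hbp (nb b hb z hz) (nb b hb z' hz')
    have e2 := strong_blk_int hs hbq (nb b' hb' z hz) (nb b' hb' z' hz')
    have nz : ∀ w z, w ∈ W → z ∉ W → w ≠ z := fun w z hw hz e => hz (e ▸ hw)
    have e0 : sep (ordFn s) a c z z' = 0 := by
      rw [← not_cross_iff hs (nz a z haW hz) (nz a z' haW hz') (nz c z hcW hz) (nz c z' hcW hz')]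
      intro h
      exact h ⟨fun h => absurd h (hac z), fun h => absurd h (hac z')⟩
    have e3 : sep (ordFn s) b b' z z' = 0 := by
      rcases hb with rfl | rfl <;> rcases hb' with rfl | rfl
      · exact sep_self_left _ _ _ _
      · exact e0
      · rw [sep_swap_left]; exact e0
      · exact sep_self_left _ _ _ _
    have e4 := sep_add_left (ordFn s) p b b' z z'
    have e5 := sep_add_left (ordFn s) p b' q z z'
    rw [← e5, ← e4, sep_swap_left (ordFn s) p b, e1, e3, e2, add_zero, add_zero]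
  have hWcr : ∀ Y ∈ F, ¬ Crossing Y W := by
    rintro Y hY ⟨⟨p1, hp1, hp1'⟩, ⟨p2, hp2, hp2'⟩, ⟨p3, hp3, hp3'⟩, ⟨p4, hp4, hp4'⟩⟩
    have hYi := hFs Y hY
    have hYc : CI s Yᶜ := IsSplit.compl (ordFn_skew hs) hYi
    have hnc := hcr Y hY
    by_cases k1 : ∀ t ∈ Y, t ∉ Z
    · exact hp2' (strong_one_block hs hYi (Or.inr k1) hWc hp1 hp2 hp1')
    by_cases k2 : ∀ t ∈ Y, t ∈ Z
    · exact hp2' (strong_one_block hs hYi (Or.inl k2) hWc hp1 hp2 hp1')
    by_cases k3 : ∀ t ∈ Yᶜ, t ∉ Z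
    · exact hp4' (strong_one_block hs hYc (Or.inr k3) hWc hp3 hp4 hp3')
    by_cases k4 : ∀ t ∈ Yᶜ, t ∈ Z
    · exact hp4' (strong_one_block hs hYc (Or.inl k4) hWc hp3 hp4 hp3')
    push Not at k1 k2 k3 k4
    obtain ⟨t1, a1, b1⟩ := k1
    obtain ⟨t2, a2, b2⟩ := k2
    obtain ⟨t3, a3, b3⟩ := k3
    obtain ⟨t4, a4, b4⟩ := k4
    exact hnc ⟨⟨t1, a1, b1⟩, ⟨t2, a2, b2⟩, ⟨t3, a3, b3⟩, ⟨t4, a4, b4⟩⟩
  have hcWZ : Crossing W Z := ⟨⟨a, haW, ha⟩, ⟨c, hcW, hc'⟩, ⟨x₁, hx₁W, hx₁⟩, ⟨y₁, hy₁W, hy₁⟩⟩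
  rcases hI W hWp hWn hWi hWcr with h | h
  · exact hcr W h hcWZ
  · exact hcr Wᶜ h (crossing_comm.1 (crossing_compl.2 (crossing_comm.1 hcWZ)))

end Pool.Agent.SOP
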